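import Pool.Agent.Y146.PZ.Rep

/-!
# The case `n = 3`, rank one, and the embedding theorem without exception
-/

set_option autoImplicit false

namespace Pool.Agent.Y146.PZ

open Pool.Agent.H198R3 Pool.Agent.H198R3.AltProd Module

universe u v

section three

variable {K : Type u} [Field K] {L : Type v} [AddCommGroup L] [Module K L]

/-- Reduction to the structure constants. -/
theorem emb_key (e : Basis (Fin (3 + 1)) K L) (B : L [⋀^Fin 3]→ₗ[K] L)
    (β : Basis (Fin (3 + 1)) K (Dual K L)) (c : K → Fin (3 + 1) → Fin (3 + 1) → K)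
    (hc : ∀ D j k, c D j k = (-1) ^ (j : ℕ) * (D * SS e B (β j) (β k)))
    (hA : ∀ D, D ≠ 0 → Alg (n := 3) (c D)) : Emb B := by
  obtain ⟨b, hb⟩ := exists_predual e β
  have hdet : e.det b ≠ 0 := (e.isUnit_det b).ne_zero
  apply emb_of_consts b B
  have h1 : cc b B = c (e.det b) := by
    funext j k
    rw [hc]
    have h3 := SS_coord b B j k
    rw [SS_change e b, hb, hb] at h3
    rw [h3, ← mul_assoc, ← pow_add, Even.neg_one_pow ⟨_, rfl⟩, one_mul]
  have h2 := hA _ hdet
  rw [← h1] at h2
  exact h2

theorem emb_three [IsAlgClosed K] (e : Basis (Fin (3 + 1)) K L) (B : L [⋀^Fin 3]→ₗ[K] L)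
    (f : Dual K L) (hf : TF e B f f ≠ 0)
    (hk : ∀ g g', TF e B f g = 0 → TF e B g g' = 0) : Emb B := by
  have hT : ∀ g g', TF e B g g' = SS e B g g' + SS e B g' g := by
    intro g g'
    rw [TF_apply]
    ring
  have h2 : (2 : K) ≠ 0 := by
    intro h2
    apply hf
    rw [hT]
    linear_combination SS e B f f * h2
  have hS : ∀ g g', TF e B f g = 0 → SS e B g g' = - SS e B g' g := by
    intro g g' hg
    have := hk g g' hg
    rw [hT] at this
    linear_combination this
  have hS0 : ∀ g, TF e B f g = 0 → SS e B g g = 0 := by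
    intro g hg
    have h := hS g g hg
    have h3 : 2 * SS e B g g = 0 := by linear_combination h
    exact (mul_eq_zero.mp h3).resolve_left h2
  have hfd : FiniteDimensional K L := e.finiteDimensional_of_finite
  have hdim : finrank K (Dual K L) = 4 := by
    rw [Subspace.dual_finrank_eq, finrank_eq_card_basis e]
    simp
  by_cases hN : ∃ g g', TF e B f g = 0 ∧ TF e B f g' = 0 ∧ SS e B g g' ≠ 0
  · obtain ⟨g, g', hg, hg', hν⟩ := hN
    have hg'g : SS e B g' g = - SS e B g g' := hS g' g hg'
    obtain ⟨f0, h1, h1', h3⟩ : ∃ f0 : Dual K L, SS e B g f0 = 0 ∧ SS e B g' f0 = 0 ∧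
        TF e B f f0 = TF e B f f := by
      refine ⟨f + (SS e B g' f / SS e B g g') • g - (SS e B g f / SS e B g g') • g', ?_, ?_, ?_⟩
      · rw [map_sub, map_add, map_smul, map_smul, hS0 g hg, smul_eq_mul, smul_eq_mul]
        field_simp
        ring
      · rw [map_sub, map_add, map_smul, map_smul, hS0 g' hg', hg'g, smul_eq_mul, smul_eq_mul]
        field_simp
        ring
      · rw [map_sub, map_add, map_smul, map_smul, hg, hg', smul_zero, smul_zero, add_zero,
          sub_zero]
    obtain ⟨f3, hf3, hTf3, hgf3, hg'f3⟩ : ∃ f3 : Dual K L, f3 ≠ 0 ∧ TF e B f f3 = 0 ∧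
        SS e B g f3 = 0 ∧ SS e B g' f3 = 0 := by
      let φ : Dual K L →ₗ[K] (Fin 3 → K) := LinearMap.pi ![TF e B f, SS e B g, SS e B g']
      have hker : LinearMap.ker φ ≠ ⊥ := LinearMap.ker_ne_bot_of_finrank_lt (by
        rw [hdim]
        simp)
      obtain ⟨f3, h, h0⟩ := (Submodule.ne_bot_iff _).mp hker
      rw [LinearMap.mem_ker] at h
      exact ⟨f3, h0, congrFun h 0, congrFun h 1, congrFun h 2⟩
    have hli : LinearIndependent K ![f0, g, g', f3] := by
      rw [Fintype.linearIndependent_iff]
      intro x hx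
      rw [Fin.sum_univ_four] at hx
      have hx' : x 0 • f0 + x 1 • g + x 2 • g' + x 3 • f3 = 0 := hx
      have a0 := congrArg (TF e B f) hx'
      rw [map_add, map_add, map_add, map_smul, map_smul, map_smul, map_smul, h3, hg, hg', hTf3,
        smul_zero, smul_zero, smul_zero, add_zero, add_zero, add_zero, map_zero,
        smul_eq_mul] at a0
      have x0 : x 0 = 0 := (mul_eq_zero.mp a0).resolve_right hf
      have a1 := congrArg (SS e B g) hx'
      rw [map_add, map_add, map_add, map_smul, map_smul, map_smul, map_smul, h1, hS0 g hg, hgf3,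
        smul_zero, smul_zero, smul_zero, add_zero, zero_add, zero_add, map_zero,
        smul_eq_mul] at a1
      have x2 : x 2 = 0 := (mul_eq_zero.mp a1).resolve_right hν
      have a2 := congrArg (SS e B g') hx'
      rw [map_add, map_add, map_add, map_smul, map_smul, map_smul, map_smul, h1', hS0 g' hg',
        hg'f3, hg'g,
        smul_zero, smul_zero, smul_zero, add_zero, zero_add, add_zero, map_zero,
        smul_eq_mul] at a2
      have x1 : x 1 = 0 := (mul_eq_zero.mp a2).resolve_right (neg_ne_zero.mpr hν)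
      rw [x0, x1, x2, zero_smul, zero_smul, zero_smul, zero_add, zero_add, zero_add] at hx'
      have x3 : x 3 = 0 := (smul_eq_zero.mp hx').resolve_right hf3
      intro i
      fin_cases i
      · exact x0
      · exact x1
      · exact x2
      · exact x3
    let β : Basis (Fin (3 + 1)) K (Dual K L) :=
      basisOfLinearIndependentOfCardEqFinrank hli (by rw [hdim]; simp)
    have hβ : ⇑β = ![f0, g, g', f3] := coe_basisOfLinearIndependentOfCardEqFinrank _ _
    have e01 : SS e B f0 g = 0 := by
      have := hS g f0 hg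
      rw [h1] at this
      linear_combination this
    have e02 : SS e B f0 g' = 0 := by
      have := hS g' f0 hg'
      rw [h1'] at this
      linear_combination this
    have e30 : SS e B f3 f0 = - SS e B f0 f3 := hS f3 f0 hTf3
    have e31 : SS e B f3 g = 0 := by rw [hS f3 g hTf3, hgf3, neg_zero]
    have e32 : SS e B f3 g' = 0 := by rw [hS f3 g' hTf3, hg'f3, neg_zero]
    refine emb_key e B β (fun D => nf (D * SS e B f0 f0) (D * SS e B g g') (D * SS e B f0 f3))
      ?_ (fun D hD => alg_nf _ _ _ (mul_ne_zero hD hν))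
    intro D j k
    rw [hβ]
    fin_cases j <;> fin_cases k <;>
      simp [nf, e01, e02, e30, e31, e32, h1, h1', hS0 g hg, hS0 g' hg', hS0 f3 hTf3, hg'g,
        hgf3, hg'f3, pow_succ]
  · push Not at hN
    have hσ : SS e B f f ≠ 0 := by
      intro h
      apply hf
      rw [hT, h, add_zero]
    let φ : Dual K L →ₗ[K] (Fin 2 → K) := LinearMap.pi ![TF e B f, SS e B f]
    have hr1 : finrank K (LinearMap.range φ) ≤ 2 := by
      have := Submodule.finrank_le (LinearMap.range φ)
      simpa using this
    have hr2 := LinearMap.finrank_range_add_finrank_ker φ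
    rw [hdim] at hr2
    have hr3 : 2 ≤ finrank K (LinearMap.ker φ) := by omega
    obtain ⟨v, hv⟩ := exists_linearIndependent_of_le_finrank hr3
    have hv' := hv.map' (Submodule.subtype _) (Submodule.ker_subtype _)
    have hvT : ∀ i, TF e B f (v i) = 0 := fun i => congrFun (LinearMap.mem_ker.mp (v i).2) 0
    have hvS : ∀ i, SS e B f (v i) = 0 := fun i => congrFun (LinearMap.mem_ker.mp (v i).2) 1
    have hli : LinearIndependent K ![f, (v 0 : Dual K L), (v 1 : Dual K L)] := by
      rw [Fintype.linearIndependent_iff]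
      intro x hx
      rw [Fin.sum_univ_three] at hx
      have hx' : x 0 • f + x 1 • (v 0 : Dual K L) + x 2 • (v 1 : Dual K L) = 0 := hx
      have a0 := congrArg (TF e B f) hx'
      rw [map_add, map_add, map_smul, map_smul, map_smul, hvT, hvT,
        smul_zero, smul_zero, add_zero, add_zero, map_zero, smul_eq_mul] at a0
      have x0 : x 0 = 0 := (mul_eq_zero.mp a0).resolve_right hf
      rw [x0, zero_smul, zero_add] at hx'
      rw [Fintype.linearIndependent_iff] at hv'
      have h5 := hv' ![x 1, x 2] (by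
        rw [Fin.sum_univ_two]
        exact hx')
      intro i
      fin_cases i
      · exact x0
      · exact h5 0
      · exact h5 1
    let s : Fin 3 ↪ Fin (3 + 1) := ⟨![0, 2, 3], by decide⟩
    obtain ⟨β', hβ'⟩ := exists_basis e.dualBasis _ hli s
    have h0 : β' 0 = f := hβ' 0
    have h02 : β' 2 = v 0 := hβ' 1
    have h03 : β' 3 = v 1 := hβ' 2
    obtain ⟨β, hβ0, hβk, hβ⟩ := adjust β' 0 (TF e B f) (by rw [h0]; exact hf)
    have g0 : β 0 = f := by rw [hβ0, h0]
    have g2 : β 2 = v 0 := by rw [hβ 2 (by rw [h02, hvT]), h02]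
    have g3 : β 3 = v 1 := by rw [hβ 3 (by rw [h03, hvT]), h03]
    refine emb_key e B β (fun D => nf0 (D * SS e B f f) (D * SS e B f (β 1)))
      ?_ (fun D hD => alg_nf0 _ _ (mul_ne_zero hD hσ))
    intro D j k
    have hT1 : TF e B f (β 1) = 0 := hβk 1 (by decide)
    have q11 : SS e B (β 1) (β 1) = 0 := hN _ _ hT1 hT1
    have q12 : SS e B (β 1) (v 0) = 0 := hN _ _ hT1 (hvT 0)
    have q13 : SS e B (β 1) (v 1) = 0 := hN _ _ hT1 (hvT 1)
    have q21 : SS e B (v 0) (β 1) = 0 := hN _ _ (hvT 0) hT1
    have q31 : SS e B (v 1) (β 1) = 0 := hN _ _ (hvT 1) hT1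
    have q22 : SS e B (v 0) (v 0) = 0 := hN _ _ (hvT 0) (hvT 0)
    have q23 : SS e B (v 0) (v 1) = 0 := hN _ _ (hvT 0) (hvT 1)
    have q32 : SS e B (v 1) (v 0) = 0 := hN _ _ (hvT 1) (hvT 0)
    have q33 : SS e B (v 1) (v 1) = 0 := hN _ _ (hvT 1) (hvT 1)
    have q02 : SS e B f (v 0) = 0 := hvS 0
    have q03 : SS e B f (v 1) = 0 := hvS 1
    have q20 : SS e B (v 0) f = 0 := by rw [hS _ _ (hvT 0), q02, neg_zero]
    have q30 : SS e B (v 1) f = 0 := by rw [hS _ _ (hvT 1), q03, neg_zero]
    have q10 : SS e B (β 1) f = - SS e B f (β 1) := hS _ _ hT1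
    fin_cases j <;> fin_cases k <;>
      simp [nf0, g0, g2, g3, q10, q11, q12, q13, q20, q21, q22, q23, q30, q31, q32, q33,
        q02, q03]

end three

section all

variable {K : Type u} [Field K] {n : ℕ}

/-- Existence of the algebra over an algebraically closed field. -/
theorem alg_closed_all [IsAlgClosed K] (hn : 3 ≤ n) (c : Fin (n + 1) → Fin (n + 1) → K) :
    Alg c := by
  apply alg_of_emb
  set e := Pi.basisFun K (Fin (n + 1)) with he
  rcases trichotomy e (Br c) with h | h | ⟨f, hf, hk⟩
  · exact emb_cases hn e (Br c) (Or.inl h)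
  · exact emb_cases hn e (Br c) (Or.inr (Or.inl h))
  · by_cases hn4 : 4 ≤ n
    · exact emb_cases hn e (Br c) (Or.inr (Or.inr ⟨hn4, f, hf, hk⟩))
    have hn3 : n = 3 := by omega
    subst hn3
    exact emb_three e (Br c) f hf hk

variable {F : Type u} [Field F] {L : Type v} [AddCommGroup L] [Module F L]

/-- **The embedding theorem**, without exception. -/
theorem embed_every (hn : 3 ≤ n) (e : Basis (Fin (n + 1)) F L) (B : L [⋀^Fin n]→ₗ[F] L) :
    Emb B := by
  let K := AlgebraicClosure F
  let ι : F →+* K := algebraMap F K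
  obtain ⟨A, _, _, x, hx, hr⟩ := alg_closed_all (K := K) hn (fun a b => ι (cc e B a b))
  let _ : Algebra F A := Algebra.compHom A ι
  have : IsScalarTower F K A := IsScalarTower.of_algebraMap_eq' rfl
  apply emb_of_consts e B
  refine ⟨A, inferInstance, inferInstance, x, hx.restrict_scalars' F, fun j => ?_⟩
  rw [hr j]
  refine Finset.sum_congr rfl fun k _ => ?_
  exact algebraMap_smul K _ _

end all

end Pool.Agent.Y146.PZ
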