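import Pool.Agent.H198R3.PozAlg

/-!
# The algebra with relations `alt(y_0, …, ŷ_j, …, y_n) = r_j` and one quadratic relation

Here `r_j` are arbitrary linear combinations of the letters, the quadratic relation has leading
word `w` (two letters) without overlaps with the words `miss j`.
-/

set_option autoImplicit false

namespace Pool.Agent.Y146.PZ

open Pool.Agent.H198R3 Pool.Agent.H198R3.Diamond Pool.Agent.H198R3.Words
  Pool.Agent.H198R3.AltProd Pool.Agent.H198R3.PozAlg

universe u

variable {F : Type u} [Field F] {n : ℕ}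

/-- The leading words. -/
def lwl' (w : List (Fin (n + 1))) : Option (Fin (n + 1)) → List (Fin (n + 1))
  | some j => miss j
  | none => w

/-- The leading words in the free monoid. -/
def lv (w : List (Fin (n + 1))) (i : Option (Fin (n + 1))) : FreeMonoid (Fin (n + 1)) :=
  FreeMonoid.ofList (lwl' w i)

/-- The relations. -/
noncomputable def gg (r : Fin (n + 1) → R F n) (q : R F n) : Option (Fin (n + 1)) → R F n
  | some j => ((Equiv.Perm.sign (Fin.revPerm (n := n)) : ℤˣ) : ℤ) •
      (altProd (fun k => y F n (j.succAbove k)) - r j)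
  | none => q

/-- The overlaps of the leading words. -/
def Ovl (w : List (Fin (n + 1))) : Prop :=
  ∀ (i j : Option (Fin (n + 1))) (c b b' : List (Fin (n + 1))),
    lwl' w i ++ b = c ++ lwl' w j ++ b' →
    (c = [] ∧ i = j ∧ b = b') ∨ (∃ d, c = lwl' w i ++ d ∧ b = d ++ lwl' w j ++ b') ∨
      (i = some 0 ∧ j = some (Fin.last n) ∧ c = [Fin.last n] ∧ b = 0 :: b') ∨
      (i = none ∧ j = none ∧ ∃ k, w = [k, k] ∧ c = [k] ∧ b = k :: b')

/-- The data of the construction. -/
structure Data (w : List (Fin (n + 1))) (r : Fin (n + 1) → R F n) (q : R F n) : Prop where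
  len : w.length = 2
  ovl : Ovl w
  comm : ∀ k, w = [k, k] → q * y F n k = y F n k * q
  lin : ∀ j, r j ∈ Submodule.span F (Set.range (y F n))
  lead : q - W F n (FreeMonoid.ofList w) ∈ wlt F (W F n) (en n) (en n (FreeMonoid.ofList w))
  quad : ∃ τ : F, ∑ j : Fin (n + 1), ((-1) ^ (j : ℕ) : ℤ) •
    (y F n j * r j - ((-1) ^ n : ℤ) • (r j * y F n j)) = τ • q

variable {w : List (Fin (n + 1))} {r : Fin (n + 1) → R F n} {q : R F n}

theorem rr_mem (hn : 3 ≤ n) (D : Data w r q) (j : Fin (n + 1)) (i : Fin (n + 1)) :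
    r j ∈ wlt F (W F n) (en n) (en n (lv w (some i))) := by
  have h : Submodule.span F (Set.range (y F n)) ≤
      wlt F (W F n) (en n) (en n (lv w (some i))) := by
    rw [Submodule.span_le]
    rintro _ ⟨k, rfl⟩
    exact y_mem hn i k
  exact h (D.lin j)

theorem gg_lead (hn : 3 ≤ n) (D : Data w r q) (i : Option (Fin (n + 1))) :
    gg r q i - W F n (lv w i) ∈ wlt F (W F n) (en n) (en n (lv w i)) := by
  cases i with
  | some j =>
    have h1 : altProd (fun k => y F n (j.succAbove k)) =
        ((Equiv.Perm.sign (Fin.revPerm (n := n)) : ℤˣ) : ℤ) • W F n (lv w (some j)) +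
        ∑ σ ∈ Finset.univ.erase (Fin.revPerm (n := n)), ((Equiv.Perm.sign σ : ℤˣ) : ℤ) •
          W F n (FreeMonoid.ofList (List.ofFn fun k => j.succAbove (σ k))) := by
      rw [altProd, ← Finset.add_sum_erase _ _ (Finset.mem_univ (Fin.revPerm (n := n)))]
      congr 1
      · rw [W_ofFn (fun k => j.succAbove (Fin.revPerm k))]
        rfl
      · refine Finset.sum_congr rfl fun σ _ => ?_
        rw [W_ofFn (fun k => j.succAbove (σ k))]
    have h2 : gg r q (some j) - W F n (lv w (some j)) =
        ((Equiv.Perm.sign (Fin.revPerm (n := n)) : ℤˣ) : ℤ) •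
        (∑ σ ∈ Finset.univ.erase (Fin.revPerm (n := n)), ((Equiv.Perm.sign σ : ℤˣ) : ℤ) •
          W F n (FreeMonoid.ofList (List.ofFn fun k => j.succAbove (σ k))) - r j) := by
      rw [gg, h1, smul_sub, smul_add, smul_smul, units_sq, one_smul, smul_sub]
      abel
    rw [h2]
    refine zsmul_mem (sub_mem (Submodule.sum_mem _ fun σ hσ => zsmul_mem ?_ _)
      (rr_mem hn D j j)) _
    refine W_mem (u := List.ofFn fun k => j.succAbove (σ k)) (v := miss j) ?_
    refine enc_perm_lt _ _ (miss_pairwise j) ?_ ?_
    · apply (List.perm_ext_iff_of_nodup ?_ ?_).mpr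
      · intro x
        rw [mem_miss, List.mem_ofFn]
        constructor
        · rintro ⟨k, rfl⟩
          exact Fin.succAbove_ne _ _
        · intro h
          obtain ⟨k, hk⟩ := Fin.exists_succAbove_eq h
          exact ⟨σ.symm k, by simpa using hk⟩
      · rw [List.nodup_ofFn]
        exact Fin.succAbove_right_injective.comp σ.injective
      · exact (miss_pairwise j).nodup
    · intro h
      rw [miss, List.ofFn_injective.eq_iff] at h
      apply (Finset.mem_erase.mp hσ).1
      ext k
      have := congrFun h k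
      rw [Fin.succAbove_right_injective this]
      rfl
  | none => exact D.lead

theorem y_mul_gg_mem (j : Fin (n + 1)) (hj : j ≠ Fin.last n) :
    y F n j * gg r q (some j) ∈
      elt F (W F n) (en n) (lv w) (gg r q) (en n (FreeMonoid.ofList (full n))) := by
  refine Submodule.subset_span ⟨FreeMonoid.of j, some j, 1, ?_, by simp [E, y]⟩
  change enc ([j] ++ miss j ++ []) < enc (full n)
  rw [List.append_nil]
  refine enc_perm_lt _ _ full_pairwise (cons_miss_perm j) ?_
  intro h
  rw [full_eq_cons] at h
  simp only [List.cons_append, List.nil_append, List.cons.injEq] at h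
  exact hj h.1

theorem gg_mul_y_mem (j : Fin (n + 1)) (hj : j ≠ 0) :
    gg r q (some j) * y F n j ∈
      elt F (W F n) (en n) (lv w) (gg r q) (en n (FreeMonoid.ofList (full n))) := by
  refine Submodule.subset_span ⟨1, some j, FreeMonoid.of j, ?_, by simp [E, y]⟩
  change enc ([] ++ miss j ++ [j]) < enc (full n)
  rw [List.nil_append]
  refine enc_perm_lt _ _ full_pairwise (miss_append_perm j) ?_
  intro h
  rw [full_eq_append] at h
  have := List.append_inj_right' h rfl
  simp only [List.cons.injEq, and_true] at this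
  exact hj this

theorem qq_mem (hn : 3 ≤ n) (D : Data w r q) :
    q ∈ elt F (W F n) (en n) (lv w) (gg r q) (en n (FreeMonoid.ofList (full n))) := by
  refine Submodule.subset_span ⟨1, none, 1, ?_, by simp [E, gg]⟩
  change enc ([] ++ w ++ []) < enc (full n)
  exact enc_lt_of_length (by simp [full_length, D.len]; omega)

/-- The two expansions of the alternating product. -/
theorem altProd_id {A : Type*} [Ring A] (a : Fin (n + 1) → A) :
    ∑ j : Fin (n + 1), ((-1) ^ (j : ℕ) : ℤ) •
      (a j * altProd (fun k => a (j.succAbove k)) -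
        ((-1) ^ n : ℤ) • (altProd (fun k => a (j.succAbove k)) * a j)) = 0 := by
  have h1 := altProd_first a
  have h2 := altProd_last a
  rw [h1] at h2
  simp only [smul_sub, Finset.sum_sub_distrib]
  rw [h2, sub_eq_zero]
  refine Finset.sum_congr rfl fun j _ => ?_
  rw [smul_smul, pow_add, mul_comm]

/-- The main ambiguity is resolvable. -/
theorem gbase (hn3 : 3 ≤ n) (D : Data w r q) :
    gg r q (some 0) * y F n 0 - y F n (Fin.last n) * gg r q (some (Fin.last n)) ∈
      elt F (W F n) (en n) (lv w) (gg r q) (en n (FreeMonoid.ofList (full n))) := by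
  set s : ℤ := ((Equiv.Perm.sign (Fin.revPerm (n := n)) : ℤˣ) : ℤ) with hs
  have hss : s * s = 1 := units_sq _
  set ε : ℤ := (-1) ^ n with hε
  have hεε : ε * ε = 1 := by rw [hε, ← mul_pow]; simp
  obtain ⟨τ, hτ⟩ := D.quad
  have halt : ∀ j : Fin (n + 1), altProd (fun k => y F n (j.succAbove k)) =
      s • gg r q (some j) + r j := by
    intro j
    rw [gg, smul_smul, ← hs, hss, one_smul]
    abel
  have hid := altProd_id (n := n) (y F n)
  have h1 : s • ∑ j : Fin (n + 1), ((-1) ^ (j : ℕ) : ℤ) •
      (y F n j * gg r q (some j) - ε • (gg r q (some j) * y F n j)) + τ • q = 0 := by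
    rw [← hτ, ← hid, Finset.smul_sum, ← Finset.sum_add_distrib]
    refine Finset.sum_congr rfl fun j _ => ?_
    rw [halt j]
    simp only [mul_add, add_mul, smul_add, smul_sub, mul_smul_comm, smul_mul_assoc]
    rw [smul_comm s, smul_comm s, smul_comm s ε]
    abel
  have h2 : ∑ j : Fin (n + 1), ((-1) ^ (j : ℕ) : ℤ) •
      (y F n j * gg r q (some j) - ε • (gg r q (some j) * y F n j)) = - (s • (τ • q)) := by
    have := congrArg (fun x => s • x) h1
    simp only [smul_add, smul_smul s s, hss, one_smul, smul_zero] at this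
    rw [eq_neg_iff_add_eq_zero]
    simpa using this
  have h3 : ∑ j : Fin (n + 1), ((-1) ^ (j : ℕ) : ℤ) • (y F n j * gg r q (some j)) =
      ε • (y F n (Fin.last n) * gg r q (some (Fin.last n))) +
      ∑ j ∈ Finset.univ.erase (Fin.last n), ((-1) ^ (j : ℕ) : ℤ) •
        (y F n j * gg r q (some j)) := by
    rw [← Finset.add_sum_erase _ _ (Finset.mem_univ (Fin.last n))]
    simp only [Fin.val_last, hε]
  have h4 : ∑ j : Fin (n + 1), ((-1) ^ (j : ℕ) : ℤ) • (gg r q (some j) * y F n j) =
      gg r q (some 0) * y F n 0 +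
      ∑ j ∈ (Finset.univ : Finset (Fin (n + 1))).erase 0, ((-1) ^ (j : ℕ) : ℤ) •
        (gg r q (some j) * y F n j) := by
    rw [← Finset.add_sum_erase _ _ (Finset.mem_univ (0 : Fin (n + 1)))]
    simp
  have h4' : ∑ j : Fin (n + 1), ((-1) ^ (j : ℕ) : ℤ) • (ε • (gg r q (some j) * y F n j)) =
      ε • ∑ j : Fin (n + 1), ((-1) ^ (j : ℕ) : ℤ) • (gg r q (some j) * y F n j) := by
    rw [Finset.smul_sum]
    refine Finset.sum_congr rfl fun j _ => ?_
    rw [smul_comm]
  simp only [smul_sub, Finset.sum_sub_distrib] at h2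
  rw [h3, h4', h4] at h2
  have h5 : gg r q (some 0) * y F n 0 - y F n (Fin.last n) * gg r q (some (Fin.last n)) =
      ε • (s • (τ • q)) + ε •
      ∑ j ∈ Finset.univ.erase (Fin.last n), ((-1) ^ (j : ℕ) : ℤ) •
        (y F n j * gg r q (some j)) -
      ∑ j ∈ (Finset.univ : Finset (Fin (n + 1))).erase 0, ((-1) ^ (j : ℕ) : ℤ) •
        (gg r q (some j) * y F n j) := by
    have h6 := congrArg (fun x => ε • x) h2
    simp only [smul_sub, smul_add, smul_neg, smul_smul ε ε, hεε, one_smul] at h6
    have h7 : ε • (s • (τ • q)) = gg r q (some 0) * y F n 0 +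
      ∑ j ∈ (Finset.univ : Finset (Fin (n + 1))).erase 0, ((-1) ^ (j : ℕ) : ℤ) •
        (gg r q (some j) * y F n j) - (y F n (Fin.last n) * gg r q (some (Fin.last n)) +
        ε • ∑ j ∈ Finset.univ.erase (Fin.last n), ((-1) ^ (j : ℕ) : ℤ) •
        (y F n j * gg r q (some j))) := by
      rw [← neg_eq_iff_eq_neg] at h6
      rw [← h6]
      abel
    rw [h7]
    abel
  rw [h5]
  refine sub_mem (add_mem (zsmul_mem (zsmul_mem (Submodule.smul_mem _ _ (qq_mem hn3 D)) _) _)
    (zsmul_mem (Submodule.sum_mem _ fun j hj => zsmul_mem ?_ _) _))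
    (Submodule.sum_mem _ fun j hj => zsmul_mem ?_ _)
  · exact y_mul_gg_mem j (Finset.mem_erase.mp hj).1
  · exact gg_mul_y_mem j (Finset.mem_erase.mp hj).1

theorem GP_aux (hn3 : 3 ≤ n) (D : Data w r q) (a c b b' : FreeMonoid (Fin (n + 1)))
    (i j : Option (Fin (n + 1))) (h : lv w i * b = c * lv w j * b') :
    E (W F n) (gg r q) a i b - E (W F n) (gg r q) (a * c) j b' ∈
      elt F (W F n) (en n) (lv w) (gg r q) (en n (a * lv w i * b)) := by
  rcases D.ovl i j c.toList b.toList b'.toList h with ⟨h1, h2, h3⟩ | ⟨d, h1, h2⟩ |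
    ⟨h1, h2, h3, h4⟩ | ⟨h1, h2, k, h3, h4, h5⟩
  · have h1' : c = 1 := h1
    have h3' : b = b' := h3
    subst h1' h2 h3'
    simp
  · have h1' : c = lv w i * FreeMonoid.ofList d := h1
    have h2' : b = FreeMonoid.ofList d * lv w j * b' := h2
    subst h1' h2'
    have := disjoint_case (F := F) (W F n) (en n) (lv w) (gg r q) en_mul (gg_lead hn3 D) a
      (FreeMonoid.ofList d) b' i j
    simpa [mul_assoc] using this
  · have h3' : c = FreeMonoid.of (Fin.last n) := h3
    have h4' : b = FreeMonoid.of 0 * b' := h4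
    subst h1 h2 h3' h4'
    have := mul_elt (F := F) (W F n) (en n) (lv w) (gg r q) en_mul a b' _ (gbase hn3 D)
    have e1 : E (W F n) (gg r q) a (some 0) (FreeMonoid.of 0 * b') -
        E (W F n) (gg r q) (a * FreeMonoid.of (Fin.last n)) (some (Fin.last n)) b' =
        W F n a * (gg r q (some 0) * y F n 0 -
          y F n (Fin.last n) * gg r q (some (Fin.last n))) * W F n b' := by
      simp only [E, y, map_mul]
      noncomm_ring
    have e2 : a * lv w (some 0) * (FreeMonoid.of 0 * b') =
        a * FreeMonoid.ofList (full n) * b' := by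
      have e3 : FreeMonoid.ofList (full n) = lv w (some 0) * FreeMonoid.of 0 := by
        rw [full_eq_append]
        rfl
      rw [e3]
      simp only [mul_assoc]
    rw [e1, e2]
    exact this
  · have h4' : c = FreeMonoid.of k := h4
    have h5' : b = FreeMonoid.of k * b' := h5
    subst h1 h2 h4' h5'
    have e1 : E (W F n) (gg r q) a none (FreeMonoid.of k * b') -
        E (W F n) (gg r q) (a * FreeMonoid.of k) none b' =
        W F n a * (q * y F n k - y F n k * q) * W F n b' := by
      simp only [E, y, map_mul, gg]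
      noncomm_ring
    rw [e1, D.comm k h3, sub_self, mul_zero, zero_mul]
    exact zero_mem _

theorem GP_all (hn3 : 3 ≤ n) (D : Data w r q) (a : FreeMonoid (Fin (n + 1)))
    (i : Option (Fin (n + 1))) (b a' : FreeMonoid (Fin (n + 1))) (j : Option (Fin (n + 1)))
    (b' : FreeMonoid (Fin (n + 1))) (h : a * lv w i * b = a' * lv w j * b') :
    E (W F n) (gg r q) a i b - E (W F n) (gg r q) a' j b' ∈
      elt F (W F n) (en n) (lv w) (gg r q) (en n (a * lv w i * b)) := by
  have h' : a.toList ++ (lwl' w i ++ b.toList) = a'.toList ++ (lwl' w j ++ b'.toList) := by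
    have := h
    rw [mul_assoc, mul_assoc] at this
    exact this
  rcases List.append_eq_append_iff.mp h' with ⟨c, h1, h2⟩ | ⟨c, h1, h2⟩
  · have h1' : a' = a * FreeMonoid.ofList c := h1
    subst h1'
    exact GP_aux hn3 D a _ b b' i j (by rw [mul_assoc]; exact h2)
  · have h1' : a = a' * FreeMonoid.ofList c := h1
    rw [h]
    subst h1'
    have := GP_aux hn3 D a' (FreeMonoid.ofList c) b' b j i (by rw [mul_assoc]; exact h2)
    rw [← neg_mem_iff, neg_sub]
    exact this

/-! ### the quotient -/

theorem span_W' : Submodule.span F (Set.range (W F n)) = ⊤ := by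
  rw [eq_top_iff]
  intro x _
  induction x using MonoidAlgebra.induction_linear with
  | zero => exact zero_mem _
  | add x y hx hy => exact add_mem (hx trivial) (hy trivial)
  | single a b =>
    have : MonoidAlgebra.single a b = b • W F n a := by
      change _ = b • MonoidAlgebra.single a (1 : F)
      rw [MonoidAlgebra.smul_single, smul_eq_mul, mul_one]
    rw [this]
    exact Submodule.smul_mem _ _ (Submodule.subset_span ⟨a, rfl⟩)

/-- The span of the elements `a g_i b`. -/
noncomputable def gsp (r : Fin (n + 1) → R F n) (q : R F n) : Submodule F (R F n) :=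
  Submodule.span F {x | ∃ a i b, x = E (W F n) (gg r q) a i b}

theorem mul_gsp_left (s x : R F n) (hx : x ∈ gsp r q) : s * x ∈ gsp r q := by
  have hr : s ∈ Submodule.span F (Set.range (W F n)) := by rw [span_W']; trivial
  induction hr using Submodule.span_induction with
  | mem r hr =>
    obtain ⟨u, rfl⟩ := hr
    unfold gsp at hx
    induction hx using Submodule.span_induction with
    | mem x hx =>
      obtain ⟨a, i, b, rfl⟩ := hx
      exact Submodule.subset_span ⟨u * a, i, b, by simp [E, mul_assoc]⟩
    | zero => rw [mul_zero]; exact zero_mem _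
    | add x y _ _ hx hy => rw [mul_add]; exact add_mem hx hy
    | smul c x _ hx => rw [mul_smul_comm]; exact Submodule.smul_mem _ _ hx
  | zero => rw [zero_mul]; exact zero_mem _
  | add x y _ _ hx hy => rw [add_mul]; exact add_mem hx hy
  | smul c x _ hx => rw [smul_mul_assoc]; exact Submodule.smul_mem _ _ hx

theorem mul_gsp_right (s x : R F n) (hx : x ∈ gsp r q) : x * s ∈ gsp r q := by
  have hr : s ∈ Submodule.span F (Set.range (W F n)) := by rw [span_W']; trivial
  induction hr using Submodule.span_induction with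
  | mem r hr =>
    obtain ⟨u, rfl⟩ := hr
    unfold gsp at hx
    induction hx using Submodule.span_induction with
    | mem x hx =>
      obtain ⟨a, i, b, rfl⟩ := hx
      exact Submodule.subset_span ⟨a, i, b * u, by simp [E, mul_assoc]⟩
    | zero => rw [zero_mul]; exact zero_mem _
    | add x y _ _ hx hy => rw [add_mul]; exact add_mem hx hy
    | smul c x _ hx => rw [smul_mul_assoc]; exact Submodule.smul_mem _ _ hx
  | zero => rw [mul_zero]; exact zero_mem _
  | add x y _ _ hx hy => rw [mul_add]; exact add_mem hx hy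
  | smul c x _ hx => rw [mul_smul_comm]; exact Submodule.smul_mem _ _ hx

/-- The ideal of relations. -/
noncomputable def gidl (r : Fin (n + 1) → R F n) (q : R F n) : Ideal (R F n) where
  carrier := gsp r q
  add_mem' := fun ha hb => add_mem ha hb
  zero_mem' := zero_mem _
  smul_mem' := fun c x hx => mul_gsp_left c x hx

instance : (gidl (n := n) r q).IsTwoSided := ⟨fun {x} s hx => mul_gsp_right s x hx⟩

theorem gsp_elt (x : R F n) (hx : x ∈ gsp r q) :
    ∃ N, x ∈ elt F (W F n) (en n) (lv w) (gg r q) N := by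
  unfold gsp at hx
  induction hx using Submodule.span_induction with
  | mem x hx =>
    obtain ⟨a, i, b, rfl⟩ := hx
    exact ⟨en n (a * lv w i * b) + 1, Submodule.subset_span ⟨a, i, b, by omega, rfl⟩⟩
  | zero => exact ⟨0, zero_mem _⟩
  | add x y _ _ hx hy =>
    obtain ⟨N, hN⟩ := hx
    obtain ⟨N', hN'⟩ := hy
    exact ⟨max N N', add_mem (elt_mono _ _ _ _ (le_max_left _ _) hN)
      (elt_mono _ _ _ _ (le_max_right _ _) hN')⟩
  | smul c x _ hx =>
    obtain ⟨N, hN⟩ := hx
    exact ⟨N, Submodule.smul_mem _ _ hN⟩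

theorem lv_length (hn : 3 ≤ n) (hw : w.length = 2) (i : Option (Fin (n + 1))) :
    2 ≤ (lv w i).toList.length := by
  cases i with
  | some j =>
    change 2 ≤ (miss j).length
    rw [miss_length]
    omega
  | none => change 2 ≤ w.length; omega

theorem gcf_word (hn : 3 ≤ n) (hw : w.length = 2) (a : FreeMonoid (Fin (n + 1)))
    (i : Option (Fin (n + 1))) (b : FreeMonoid (Fin (n + 1))) (c : Fin (n + 1) → F) :
    cf F n (a * lv w i * b) (∑ j, c j • y F n j) = 0 := by
  rw [map_sum]
  apply Finset.sum_eq_zero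
  intro j _
  rw [map_smul, y, cf_W, if_neg, smul_zero]
  intro h
  have h1 := congrArg (fun w : FreeMonoid (Fin (n + 1)) => w.toList.length) h
  have h2 := lv_length hn hw i
  simp only [FreeMonoid.toList_mul, List.length_append, FreeMonoid.toList_of,
    List.length_singleton] at h1
  omega

/-- The letters are linearly independent modulo the relations. -/
theorem gy_indep (hn3 : 3 ≤ n) (D : Data w r q) :
    LinearIndependent F (fun j => Ideal.Quotient.mk (gidl r q) (y F n j)) := by
  rw [Fintype.linearIndependent_iff]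
  intro c hc
  have h1 : (∑ j, c j • y F n j) ∈ gidl r q := by
    rw [← Ideal.Quotient.eq_zero_iff_mem, ← hc, map_sum]
    rfl
  have h1' : (∑ j, c j • y F n j) ∈ gsp r q := h1
  obtain ⟨N, hN⟩ := gsp_elt (w := w) _ h1'
  have h2 : (∑ j, c j • y F n j) = 0 := by
    by_contra h0
    obtain ⟨a, i, b, h3⟩ := Diamond.main (F := F) (W F n) (cf F n) (en n) (lv w) (gg r q) cf_W
      en_inj en_mul (gg_lead hn3 D) (GP_all hn3 D) N _ hN h0
    exact h3 (gcf_word hn3 D.len a i b c)
  intro j
  have h3 := congrArg (cf F n (FreeMonoid.of j)) h2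
  rw [map_sum, map_zero] at h3
  rw [Finset.sum_eq_single j] at h3
  · rw [map_smul, y, cf_W, if_pos rfl] at h3
    simpa using h3
  · intro k _ hk
    rw [map_smul, y, cf_W, if_neg, smul_zero]
    intro h
    exact hk (FreeMonoid.of_injective h).symm
  · intro h
    exact absurd (Finset.mem_univ j) h

theorem gmk_altProd {m : ℕ} (a : Fin m → R F n) :
    Ideal.Quotient.mk (gidl r q) (altProd a) =
      altProd (fun k => Ideal.Quotient.mk (gidl r q) (a k)) := by
  simp only [altProd, map_sum, map_zsmul, map_list_prod, List.map_ofFn]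
  rfl

theorem galt_rel (j : Fin (n + 1)) :
    altProd (fun k => Ideal.Quotient.mk (gidl r q) (y F n (j.succAbove k))) =
      Ideal.Quotient.mk (gidl r q) (r j) := by
  have h1 : gg r q (some j) ∈ gidl r q :=
    Submodule.subset_span ⟨1, some j, 1, by simp [E]⟩
  have h2 : altProd (fun k => y F n (j.succAbove k)) - r j ∈ gidl r q := by
    have : altProd (fun k => y F n (j.succAbove k)) - r j =
        ((Equiv.Perm.sign (Fin.revPerm (n := n)) : ℤˣ) : ℤ) • gg r q (some j) := by
      rw [gg, smul_smul, units_sq, one_smul]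
    rw [this]
    exact zsmul_mem h1 _
  rw [← gmk_altProd, ← sub_eq_zero, ← map_sub]
  exact Ideal.Quotient.eq_zero_iff_mem.mpr h2

/-- The algebra: letters which are independent and have the given alternating products. -/
theorem exists_alg (hn3 : 3 ≤ n) (c : Fin (n + 1) → Fin (n + 1) → F)
    (D : Data w (fun j => ∑ k, c j k • y F n k) q) :
    ∃ (A : Type u) (_ : Ring A) (_ : Algebra F A) (x : Fin (n + 1) → A),
      LinearIndependent F x ∧
      ∀ j : Fin (n + 1), altProd (fun k => x (j.succAbove k)) = ∑ k, c j k • x k := by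
  refine ⟨R F n ⧸ gidl (fun j => ∑ k, c j k • y F n k) q, inferInstance, inferInstance,
    fun j => Ideal.Quotient.mk (gidl (fun j => ∑ k, c j k • y F n k) q) (y F n j),
    gy_indep hn3 D, fun j => ?_⟩
  rw [galt_rel, map_sum]
  rfl

end Pool.Agent.Y146.PZ
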