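import Pool.Agent.Y146.PZ.Ov
import Pool.Agent.H198R3.PozFinal

/-!
# Structure constants for which the construction works
-/

set_option autoImplicit false

namespace Pool.Agent.Y146.PZ

open Pool.Agent.H198R3 Pool.Agent.H198R3.Diamond Pool.Agent.H198R3.Words
  Pool.Agent.H198R3.AltProd Pool.Agent.H198R3.PozAlg

universe u

variable {F : Type u} [Field F] {n : ℕ}

/-- The coefficients of the quadratic relation. -/
def TT (c : Fin (n + 1) → Fin (n + 1) → F) (j k : Fin (n + 1)) : F :=
  (-1) ^ (j : ℕ) * c j k - (-1) ^ n * ((-1) ^ (k : ℕ) * c k j)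

theorem quad_sum (c : Fin (n + 1) → Fin (n + 1) → F) :
    ∑ j : Fin (n + 1), ((-1) ^ (j : ℕ) : ℤ) •
      (y F n j * (∑ k, c j k • y F n k) - ((-1) ^ n : ℤ) • ((∑ k, c j k • y F n k) * y F n j)) =
    ∑ j, ∑ k, TT c j k • (y F n j * y F n k) := by
  have h1 : ∀ j : Fin (n + 1), ((-1) ^ (j : ℕ) : ℤ) •
      (y F n j * (∑ k, c j k • y F n k) - ((-1) ^ n : ℤ) • ((∑ k, c j k • y F n k) * y F n j)) =
      ∑ k, ((-1) ^ (j : ℕ) * c j k) • (y F n j * y F n k) -
      ∑ k, ((-1) ^ n * ((-1) ^ (j : ℕ) * c j k)) • (y F n k * y F n j) := by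
    intro j
    rw [smul_sub, Finset.mul_sum, Finset.sum_mul, Finset.smul_sum, Finset.smul_sum,
      Finset.smul_sum]
    congr 1
    · refine Finset.sum_congr rfl fun k _ => ?_
      rw [mul_smul_comm, ← Int.cast_smul_eq_zsmul F, smul_smul]
      push_cast
      rfl
    · refine Finset.sum_congr rfl fun k _ => ?_
      rw [smul_mul_assoc, ← Int.cast_smul_eq_zsmul F, ← Int.cast_smul_eq_zsmul F, smul_smul,
        smul_smul]
      push_cast
      congr 1
      ring
  rw [Finset.sum_congr rfl fun j _ => h1 j, Finset.sum_sub_distrib]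
  have h2 : ∑ j : Fin (n + 1), ∑ k : Fin (n + 1),
      ((-1) ^ n * ((-1) ^ (j : ℕ) * c j k)) • (y F n k * y F n j) =
      ∑ j : Fin (n + 1), ∑ k : Fin (n + 1),
      ((-1) ^ n * ((-1) ^ (k : ℕ) * c k j)) • (y F n j * y F n k) := Finset.sum_comm
  rw [h2, ← Finset.sum_sub_distrib]
  refine Finset.sum_congr rfl fun j _ => ?_
  rw [← Finset.sum_sub_distrib]
  refine Finset.sum_congr rfl fun k _ => ?_
  rw [TT, sub_smul]

theorem lin_mem (c : Fin (n + 1) → Fin (n + 1) → F) (j : Fin (n + 1)) :
    (∑ k, c j k • y F n k) ∈ Submodule.span F (Set.range (y F n)) :=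
  Submodule.sum_mem _ fun k _ => Submodule.smul_mem _ _ (Submodule.subset_span ⟨k, rfl⟩)

theorem yy_W (j k : Fin (n + 1)) : y F n j * y F n k = W F n (FreeMonoid.ofList [j, k]) := by
  rw [y, y, ← map_mul]
  rfl

theorem data_zero (hn : 3 ≤ n) (c : Fin (n + 1) → Fin (n + 1) → F) (h : ∀ j k, TT c j k = 0) :
    Data [Fin.last n, 0] (fun j => ∑ k, c j k • y F n k) (y F n (Fin.last n) * y F n 0) where
  len := rfl
  ovl := ovl_hyp hn
  comm := by
    intro k hk
    simp only [List.cons.injEq, and_true] at hk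
    exact absurd (hk.1.trans hk.2.symm) (last_ne_zero' hn)
  lin := lin_mem c
  lead := by
    rw [yy_W, sub_self]
    exact zero_mem _
  quad := by
    refine ⟨0, ?_⟩
    rw [quad_sum]
    simp [h]

theorem data_hyp (hn : 3 ≤ n) (c : Fin (n + 1) → Fin (n + 1) → F)
    (h : ∀ k, k ≠ 0 → TT c (Fin.last n) k = 0) (h0 : TT c (Fin.last n) 0 ≠ 0) :
    Data [Fin.last n, 0] (fun j => ∑ k, c j k • y F n k)
      ((TT c (Fin.last n) 0)⁻¹ • ∑ j, ∑ k, TT c j k • (y F n j * y F n k)) where
  len := rfl
  ovl := ovl_hyp hn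
  comm := by
    intro k hk
    simp only [List.cons.injEq, and_true] at hk
    exact absurd (hk.1.trans hk.2.symm) (last_ne_zero' hn)
  lin := lin_mem c
  lead := by
    have h1 : ∑ j, ∑ k, TT c j k • (y F n j * y F n k) =
        TT c (Fin.last n) 0 • (y F n (Fin.last n) * y F n 0) +
        ∑ j ∈ Finset.univ.erase (Fin.last n), ∑ k, TT c j k • (y F n j * y F n k) := by
      rw [← Finset.add_sum_erase _ _ (Finset.mem_univ (Fin.last n))]
      congr 1
      rw [Finset.sum_eq_single 0]
      · intro k _ hk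
        rw [h k hk, zero_smul]
      · intro h'
        exact absurd (Finset.mem_univ _) h'
    rw [h1, smul_add, smul_smul, inv_mul_cancel₀ h0, one_smul, yy_W, add_sub_cancel_left]
    refine Submodule.smul_mem _ _ (Submodule.sum_mem _ fun j hj => Submodule.sum_mem _ fun k _ =>
      Submodule.smul_mem _ _ ?_)
    rw [yy_W]
    refine W_mem (u := [j, k]) (v := [Fin.last n, 0]) ?_
    have hj1 : (j : ℕ) < n := by
      have := Fin.lt_last_iff_ne_last.mpr (Finset.mem_erase.mp hj).1
      exact this
    have hk1 := k.isLt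
    simp only [enc, List.length_cons, List.length_nil, Fin.val_last]
    simp
    nlinarith
  quad := by
    refine ⟨TT c (Fin.last n) 0, ?_⟩
    rw [quad_sum, smul_smul, mul_inv_cancel₀ h0, one_smul]

theorem data_sq (c : Fin (n + 1) → Fin (n + 1) → F) (κ : Fin (n + 1)) (hk : 2 ≤ (κ : ℕ))
    (hk' : (κ : ℕ) + 2 ≤ n) (h : ∀ j k, ¬ (j = κ ∧ k = κ) → TT c j k = 0) :
    Data [κ, κ] (fun j => ∑ k, c j k • y F n k) (y F n κ * y F n κ) where
  len := rfl
  ovl := ovl_sq κ hk hk'
  comm := by
    intro k hk
    simp only [List.cons.injEq, and_true, and_self] at hk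
    rw [← hk, mul_assoc]
  lin := lin_mem c
  lead := by
    rw [yy_W, sub_self]
    exact zero_mem _
  quad := by
    refine ⟨TT c κ κ, ?_⟩
    rw [quad_sum, Finset.sum_eq_single κ, Finset.sum_eq_single κ]
    · intro k _ hk
      rw [h κ k (fun h' => hk h'.2), zero_smul]
    · intro h'
      exact absurd (Finset.mem_univ _) h'
    · intro j _ hj
      refine Finset.sum_eq_zero fun k _ => ?_
      rw [h j k (fun h' => hj h'.1), zero_smul]
    · intro h'
      exact absurd (Finset.mem_univ _) h'

/-- The linear map sending the basis to elements with the right alternating products is a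
homomorphism. -/
theorem hom_of_basis {L : Type*} [AddCommGroup L] [Module F L]
    (e : Module.Basis (Fin (n + 1)) F L) (B : L [⋀^Fin n]→ₗ[F] L)
    {A : Type*} [Ring A] [Algebra F A] (x : Fin (n + 1) → A)
    (hx : ∀ j : Fin (n + 1), altProd (fun k => x (j.succAbove k)) =
      e.constr F x (B (fun k => e (j.succAbove k)))) (v : Fin n → L) :
    e.constr F x (B v) = altProd (fun k => e.constr F x (v k)) := by
  set j := e.constr F x with hj
  have halt : ∀ a : Fin n → A, altProd a =
      MultilinearMap.alternatization (MultilinearMap.mkPiAlgebraFin F n A) a :=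
    altProd_eq_alternatization
  have key : j.compAlternatingMap B =
      (MultilinearMap.alternatization (MultilinearMap.mkPiAlgebraFin F n A)).compLinearMap j := by
    apply Module.Basis.ext_alternating e
    intro w hw
    obtain ⟨i, σ, rfl⟩ := PozFinal.injective_factor w hw
    rw [LinearMap.compAlternatingMap_apply, AlternatingMap.compLinearMap_apply]
    have e1 : (fun k => e (i.succAbove (σ k))) = (fun k => e (i.succAbove k)) ∘ σ := rfl
    have e2 : (fun k => j (e (i.succAbove (σ k)))) = (fun k => j (e (i.succAbove k))) ∘ σ := rfl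
    have e3 : ∀ k, j (e k) = x k := fun k => by rw [hj, Module.Basis.constr_basis]
    rw [e1, AlternatingMap.map_perm]
    change _ = MultilinearMap.alternatization (MultilinearMap.mkPiAlgebraFin F n A)
      (fun k => j (e (i.succAbove (σ k))))
    rw [e2, AlternatingMap.map_perm, ← halt]
    simp only [e3]
    rw [hx, Units.smul_def, Units.smul_def, map_zsmul]
  have h := congrArg (fun f => f v) key
  simp only [LinearMap.compAlternatingMap_apply, AlternatingMap.compLinearMap_apply] at h
  rw [h, halt]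

theorem constr_injective {L : Type*} [AddCommGroup L] [Module F L]
    (e : Module.Basis (Fin (n + 1)) F L) {A : Type*} [Ring A] [Algebra F A]
    (x : Fin (n + 1) → A) (hx : LinearIndependent F x) :
    Function.Injective (e.constr F x) := by
  rw [← LinearMap.ker_eq_bot, LinearMap.ker_eq_bot']
  intro v hv
  have h1 : e.constr F x v = ∑ i, e.repr v i • x i := by
    rw [Module.Basis.constr_apply_fintype]
    rfl
  rw [h1] at hv
  have h3 := Fintype.linearIndependent_iff.mp hx _ hv
  apply e.repr.injective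
  ext i
  rw [h3 i, map_zero]
  rfl

end Pool.Agent.Y146.PZ
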