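import Pool.Agent.Y146.PZ.Main

/-!
# Small dimensions, abelian algebras and products
-/

set_option autoImplicit false

namespace Pool.Agent.Y146.PZ

open Pool.Agent.H198R3 Pool.Agent.H198R3.AltProd Module

universe u v

variable {F : Type u} [Field F] {n : ℕ}

/-- Embedding in an associative algebra, with a more flexible universe. -/
def EmbM {L : Type v} [AddCommGroup L] [Module F L] (B : L [⋀^Fin n]→ₗ[F] L) : Prop :=
  ∃ (A : Type (max u v)) (_ : Ring A) (_ : Algebra F A) (j : L →ₗ[F] A), Function.Injective j ∧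
    ∀ v : Fin n → L, j (B v) = altProd (fun k => j (v k))

theorem map_altProd {A A' : Type*} [Ring A] [Ring A'] (f : A →+* A') {m : ℕ} (a : Fin m → A) :
    f (altProd a) = altProd (fun k => f (a k)) := by
  simp only [altProd, map_sum, map_zsmul, map_list_prod, List.map_ofFn]
  rfl

theorem embM_of_emb {L : Type v} [AddCommGroup L] [Module F L] (B : L [⋀^Fin n]→ₗ[F] L)
    (h : Emb B) : EmbM B := by
  obtain ⟨A, _, _, j, hj, hB⟩ := h
  refine ⟨ULift.{v} A, inferInstance, inferInstance,
    (ULift.algEquiv (R := F) (A := A)).symm.toLinearMap ∘ₗ j, ?_, ?_⟩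
  · exact (ULift.algEquiv (R := F) (A := A)).symm.injective.comp hj
  · intro v
    have h1 := map_altProd ((ULift.algEquiv (R := F) (A := A)).symm : A →+* ULift.{v} A)
      (fun k => j (v k))
    rw [← hB] at h1
    exact h1

theorem altProd_zero {A : Type*} [Ring A] (hn : 2 ≤ n) (a : Fin n → A)
    (h : ∀ k l, a k * a l = 0) : altProd a = 0 := by
  obtain ⟨m, rfl⟩ : ∃ m, n = m + 1 + 1 := ⟨n - 2, by omega⟩
  rw [altProd_first]
  refine Finset.sum_eq_zero fun j _ => ?_
  rw [altProd_first, Finset.mul_sum, Finset.sum_eq_zero, smul_zero]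
  intro k _
  rw [mul_smul_comm, ← mul_assoc, h, zero_mul, smul_zero]

theorem embM_zero (hn : 2 ≤ n) (L : Type v) [AddCommGroup L] [Module F L] :
    EmbM (F := F) (n := n) (0 : L [⋀^Fin n]→ₗ[F] L) := by
  let φ : L →ₗ[F] Module.End F (F × L) :=
    { toFun := fun v => (LinearMap.inr F F L) ∘ₗ (LinearMap.toSpanSingleton F L v) ∘ₗ
        (LinearMap.fst F F L)
      map_add' := fun v w => by ext <;> simp
      map_smul' := fun c v => by ext <;> simp }
  refine ⟨Module.End F (F × L), inferInstance, inferInstance, φ, ?_, ?_⟩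
  · intro v w h
    have h1 := congrArg (fun f : Module.End F (F × L) => (f (1, 0)).2) h
    simpa [φ] using h1
  · intro v
    rw [altProd_zero hn]
    · simp
    · intro k l
      ext <;> simp [φ]

/-- Closure under products. -/
theorem embM_pi {I : Type v} {L : I → Type v} [∀ i, AddCommGroup (L i)] [∀ i, Module F (L i)]
    (B : ∀ i, L i [⋀^Fin n]→ₗ[F] L i) (h : ∀ i, EmbM (B i)) :
    EmbM (AlternatingMap.pi fun i => (B i).compLinearMap (LinearMap.proj i)) := by
  choose A iR iA j hj hB using h
  refine ⟨∀ i, A i, inferInstance, inferInstance,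
    LinearMap.pi fun i => (j i) ∘ₗ (LinearMap.proj i), ?_, ?_⟩
  · intro v w hvw
    funext i
    exact hj i (congrFun hvw i)
  · intro v
    funext i
    have h1 := map_altProd (Pi.evalRingHom A i)
      (fun k => (LinearMap.pi fun i => (j i) ∘ₗ (LinearMap.proj i)) (v k))
    have h2 := hB i (fun k => v k i)
    simp only [Pi.evalRingHom_apply] at h1
    rw [h1]
    exact h2

/-- Algebras of dimension at most `n`. -/
theorem embM_small (hn : 3 ≤ n) {L : Type v} [AddCommGroup L] [Module F L]
    [FiniteDimensional F L] (B : L [⋀^Fin n]→ₗ[F] L) (h : finrank F L ≤ n) : EmbM B := by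
  by_cases hB : B = 0
  · rw [hB]
    exact embM_zero (by omega) L
  have hrank : finrank F L = n := by
    by_contra hne
    apply hB
    ext v
    rw [AlternatingMap.zero_apply]
    apply B.map_linearDependent
    intro hli
    have := hli.fintype_card_le_finrank
    rw [Fintype.card_fin] at this
    omega
  let e0 : Basis (Fin n) F L := finBasisOfFinrankEq F L hrank
  let e : Basis (Fin (n + 1)) F (L × F) :=
    (e0.prod (Basis.singleton (Fin 1) F)).reindex finSumFinEquiv
  let B' : (L × F) [⋀^Fin n]→ₗ[F] (L × F) :=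
    (LinearMap.inl F L F).compAlternatingMap (B.compLinearMap (LinearMap.fst F L F))
  have he : ∀ k : Fin n, e (Fin.castSucc k) = (e0 k, 0) := by
    intro k
    have h1 : (Fin.castSucc k : Fin (n + 1)) = finSumFinEquiv (Sum.inl k) := rfl
    rw [h1]
    simp only [e, Basis.reindex_apply, Equiv.symm_apply_apply]
    simp
  have hel : e (Fin.last n) = (0, 1) := by
    have h1 : (Fin.last n : Fin (n + 1)) = finSumFinEquiv (Sum.inr 0) := rfl
    rw [h1]
    simp only [e, Basis.reindex_apply, Equiv.symm_apply_apply]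
    simp
  have hrow : ∀ j : Fin (n + 1), j ≠ Fin.last n → ∀ k, cc e B' j k = 0 := by
    intro j hj k
    obtain ⟨l, hl⟩ := Fin.exists_succAbove_eq (Ne.symm hj)
    have h1 : B' (fun l => e (j.succAbove l)) = 0 := by
      change ((B (fun l => (e (j.succAbove l)).1), (0 : F)) : L × F) = 0
      rw [B.map_coord_zero l (by rw [hl, hel])]
      rfl
    rw [cc, h1, map_zero]
    rfl
  have hlast : ∀ k, cc e B' (Fin.last n) k = e.repr ((B e0, 0) : L × F) k := by
    intro k
    have h1 : B' (fun l => e ((Fin.last n).succAbove l)) = ((B e0, 0) : L × F) := by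
      change ((B (fun l => (e ((Fin.last n).succAbove l)).1), (0 : F)) : L × F) = _
      congr 2
      funext l
      rw [Fin.succAbove_last, he]
    rw [cc, h1]
  have hll : cc e B' (Fin.last n) (Fin.last n) = 0 := by
    rw [hlast]
    have h1 : (Fin.last n : Fin (n + 1)) = finSumFinEquiv (Sum.inr 0) := rfl
    rw [h1]
    simp [e]
  have hBe : B e0 ≠ 0 := by
    intro h0
    apply hB
    apply Basis.ext_alternating e0
    intro v hv
    let σ : Equiv.Perm (Fin n) := Equiv.ofBijective v (Finite.injective_iff_bijective.mp hv)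
    have h1 : (fun i => e0 (v i)) = (e0 : Fin n → L) ∘ σ := rfl
    rw [h1, AlternatingMap.map_perm, h0, smul_zero, AlternatingMap.zero_apply]
  obtain ⟨k, hk⟩ : ∃ k, e0.repr (B e0) k ≠ 0 := by
    by_contra hcon
    push Not at hcon
    apply hBe
    apply e0.repr.injective
    ext k
    rw [hcon k, map_zero]
    rfl
  have hlk : cc e B' (Fin.last n) (Fin.castSucc k) ≠ 0 := by
    rw [hlast]
    have h1 : (Fin.castSucc k : Fin (n + 1)) = finSumFinEquiv (Sum.inl k) := rfl
    rw [h1]
    simpa [e] using hk
  have hkne : Fin.castSucc k ≠ Fin.last n := (Fin.castSucc_lt_last k).ne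
  have hemb : Emb B' := by
    apply embed_all' hn e B'
    intro _
    right; right
    refine ⟨Fin.last n, Fin.castSucc k, Fin.castSucc k, Fin.last n, ?_⟩
    have t1 : TT (cc e B') (Fin.last n) (Fin.castSucc k) ≠ 0 := by
      rw [TT, hrow _ hkne, mul_zero, mul_zero, sub_zero]
      exact mul_ne_zero (pow_ne_zero _ (neg_ne_zero.mpr one_ne_zero)) hlk
    have t2 : TT (cc e B') (Fin.castSucc k) (Fin.last n) ≠ 0 := by
      rw [TT, hrow _ hkne, mul_zero, zero_sub, neg_ne_zero]
      exact mul_ne_zero (pow_ne_zero _ (neg_ne_zero.mpr one_ne_zero))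
        (mul_ne_zero (pow_ne_zero _ (neg_ne_zero.mpr one_ne_zero)) hlk)
    have t3 : TT (cc e B') (Fin.last n) (Fin.last n) = 0 := by
      rw [TT, hll]
      simp
    rw [t3, zero_mul]
    exact mul_ne_zero t1 t2
  obtain ⟨A, _, _, j, hj, hjB⟩ := hemb
  have hE : Emb B := by
    refine ⟨A, inferInstance, inferInstance, j ∘ₗ LinearMap.inl F L F,
      hj.comp LinearMap.inl_injective, fun v => ?_⟩
    have h1 := hjB (fun k => LinearMap.inl F L F (v k))
    exact h1
  exact embM_of_emb B hE

end Pool.Agent.Y146.PZ
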