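import Pool.Agent.Y146.PZ.Core

/-!
# Choice of a good basis
-/

set_option autoImplicit false

namespace Pool.Agent.Y146.PZ

open Pool.Agent.H198R3 Pool.Agent.H198R3.AltProd Module

universe u v

section bases

variable {K : Type u} [Field K] {V : Type v} [AddCommGroup V] [Module K V] {n : ℕ}

/-- Extension of an independent family to a basis, with prescribed places. -/
theorem exists_basis (β0 : Basis (Fin (n + 1)) K V) {m : ℕ} (v : Fin m → V)
    (hv : LinearIndependent K v) (s : Fin m ↪ Fin (n + 1)) :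
    ∃ β : Basis (Fin (n + 1)) K V, ∀ i, β (s i) = v i := by
  have hs := hv.linearIndepOn_id
  let b := Basis.extend hs
  let e0 := b.indexEquiv β0
  let w : Fin m ↪ hs.extend (Set.subset_univ _) :=
    ⟨fun i => ⟨v i, hs.subset_extend _ (Set.mem_range_self i)⟩, fun i j h => by
      have := congrArg Subtype.val h
      exact hv.injective this⟩
  have hpt : MulAction.IsMultiplyPretransitive (Equiv.Perm (Fin (n + 1))) (Fin (n + 1)) m :=
    Equiv.Perm.isMultiplyPretransitive (Fin (n + 1)) m
  obtain ⟨g, hg⟩ := hpt.exists_smul_eq (w.trans e0.toEmbedding) s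
  refine ⟨b.reindex (e0.trans g), fun i => ?_⟩
  have h1 : s i = g (e0 (w i)) := by
    rw [← hg]
    rfl
  rw [Basis.reindex_apply, h1]
  have h2 : (e0.trans g).symm (g (e0 (w i))) = w i := by
    rw [Equiv.symm_apply_eq]
    rfl
  rw [h2]
  exact Basis.extend_apply_self hs _

/-- Making the other basis vectors lie in the kernel of a functional. -/
theorem adjust (β' : Basis (Fin (n + 1)) K V) (i0 : Fin (n + 1)) (l : V →ₗ[K] K)
    (h : l (β' i0) ≠ 0) :
    ∃ β : Basis (Fin (n + 1)) K V, β i0 = β' i0 ∧ (∀ k, k ≠ i0 → l (β k) = 0) ∧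
      ∀ k, l (β' k) = 0 → β k = β' k := by
  let μ : V →ₗ[K] K := β'.constr K
    (fun k => if k = i0 then 0 else - (l (β' k) / l (β' i0)))
  have hμ : ∀ k, μ (β' k) = if k = i0 then 0 else - (l (β' k) / l (β' i0)) := fun k => by
    simp only [μ, Basis.constr_basis]
  have h0 : μ (β' i0) = 0 := by rw [hμ, if_pos rfl]
  refine ⟨β'.map (LinearEquiv.transvection h0), ?_, ?_, ?_⟩
  · rw [Basis.map_apply, LinearEquiv.transvection.apply, h0, zero_smul, add_zero]
  · intro k hk
    rw [Basis.map_apply, LinearEquiv.transvection.apply, hμ, if_neg hk, map_add, map_smul,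
      smul_eq_mul]
    field_simp
    ring
  · intro k hk
    rw [Basis.map_apply, LinearEquiv.transvection.apply, hμ, hk]
    simp

/-- A basis of the dual space is the dual of a basis. -/
theorem exists_predual (e : Basis (Fin (n + 1)) K V) (β : Basis (Fin (n + 1)) K (Dual K V)) :
    ∃ b : Basis (Fin (n + 1)) K V, ∀ k, b.coord k = β k := by
  have : FiniteDimensional K V := e.finiteDimensional_of_finite
  let b : Basis (Fin (n + 1)) K V := β.dualBasis.map (evalEquiv K V).symm
  refine ⟨b, fun k => ?_⟩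
  apply b.ext
  intro i
  have h1 : β k (b i) = evalEquiv K V (b i) (β k) := rfl
  have h2 : evalEquiv K V (b i) = β.dualBasis i := by
    simp only [b, Basis.map_apply, LinearEquiv.apply_symm_apply]
  rw [h1, h2, Basis.dualBasis_apply_self, Basis.coord_apply, Basis.repr_self,
    Finsupp.single_apply]
  simp only [eq_comm]

end bases

section form

variable {K : Type u} [Field K] {L : Type v} [AddCommGroup L] [Module K L] {n : ℕ}

/-- The bilinear form of the bracket on the dual space. -/
noncomputable def SS (e : Fin (n + 1) → L) (B : L [⋀^Fin n]→ₗ[K] L) :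
    Dual K L →ₗ[K] Dual K L →ₗ[K] K :=
  LinearMap.mk₂ K (fun f g => ∑ j : Fin (n + 1), (-1) ^ (j : ℕ) *
      (f (e j) * g (B (fun k => e (j.succAbove k)))))
    (fun f f' g => by
      rw [← Finset.sum_add_distrib]
      refine Finset.sum_congr rfl fun j _ => ?_
      rw [LinearMap.add_apply]; ring)
    (fun c f g => by
      rw [Finset.smul_sum]
      refine Finset.sum_congr rfl fun j _ => ?_
      rw [LinearMap.smul_apply, smul_eq_mul, smul_eq_mul]; ring)
    (fun f g g' => by
      rw [← Finset.sum_add_distrib]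
      refine Finset.sum_congr rfl fun j _ => ?_
      rw [LinearMap.add_apply]; ring)
    (fun c f g => by
      rw [Finset.smul_sum]
      refine Finset.sum_congr rfl fun j _ => ?_
      rw [LinearMap.smul_apply, smul_eq_mul, smul_eq_mul]; ring)

theorem SS_apply (e : Fin (n + 1) → L) (B : L [⋀^Fin n]→ₗ[K] L) (f g : Dual K L) :
    SS e B f g = ∑ j : Fin (n + 1), (-1) ^ (j : ℕ) *
      (f (e j) * g (B (fun k => e (j.succAbove k)))) := rfl

theorem SS_change (e b : Basis (Fin (n + 1)) K L) (B : L [⋀^Fin n]→ₗ[K] L) (f g : Dual K L) :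
    SS b B f g = e.det b * SS e B f g := by
  let ω : L [⋀^Fin (n + 1)]→ₗ[K] K :=
    AlternatingMap.alternatizeUncurryFin (f.smulRight (g.compAlternatingMap B))
  have h : ∀ v : Fin (n + 1) → L, ω v = SS v B f g := by
    intro v
    simp only [ω]
    rw [AlternatingMap.alternatizeUncurryFin_apply, SS_apply]
    refine Finset.sum_congr rfl fun j _ => ?_
    rw [LinearMap.smulRight_apply, AlternatingMap.smul_apply,
      LinearMap.compAlternatingMap_apply, smul_eq_mul, zsmul_eq_mul]
    push_cast
    rfl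
  have h1 := ω.eq_smul_basis_det e
  have h2 := congrArg (fun ψ => ψ (b : Fin (n + 1) → L)) h1
  simp only [AlternatingMap.smul_apply, smul_eq_mul, h] at h2
  rw [h2, mul_comm]

/-- The symmetrized form. -/
noncomputable def TF (e : Fin (n + 1) → L) (B : L [⋀^Fin n]→ₗ[K] L) :
    Dual K L →ₗ[K] Dual K L →ₗ[K] K :=
  SS e B - ((-1) ^ n : K) • (SS e B).flip

theorem TF_apply (e : Fin (n + 1) → L) (B : L [⋀^Fin n]→ₗ[K] L) (f g : Dual K L) :
    TF e B f g = SS e B f g - (-1) ^ n * SS e B g f := rfl

theorem TF_change (e b : Basis (Fin (n + 1)) K L) (B : L [⋀^Fin n]→ₗ[K] L) (f g : Dual K L) :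
    TF b B f g = e.det b * TF e B f g := by
  rw [TF_apply, TF_apply, SS_change e b, SS_change e b]
  ring

/-- The structure constants. -/
noncomputable def cc (b : Basis (Fin (n + 1)) K L) (B : L [⋀^Fin n]→ₗ[K] L)
    (j k : Fin (n + 1)) : K := b.repr (B (fun l => b (j.succAbove l))) k

theorem SS_coord (b : Basis (Fin (n + 1)) K L) (B : L [⋀^Fin n]→ₗ[K] L) (j k : Fin (n + 1)) :
    SS b B (b.coord j) (b.coord k) = (-1) ^ (j : ℕ) * cc b B j k := by
  rw [SS_apply, Finset.sum_eq_single j]
  · rw [Basis.coord_apply, Basis.repr_self, Finsupp.single_eq_same, one_mul]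
    rfl
  · intro i _ hi
    rw [Basis.coord_apply, Basis.repr_self, Finsupp.single_eq_of_ne (by tauto), zero_mul,
      mul_zero]
  · intro h
    exact absurd (Finset.mem_univ _) h

theorem TT_cc (b : Basis (Fin (n + 1)) K L) (B : L [⋀^Fin n]→ₗ[K] L) (j k : Fin (n + 1)) :
    TT (cc b B) j k = TF b B (b.coord j) (b.coord k) := by
  rw [TF_apply, SS_coord, SS_coord, TT]

/-- Having an embedding in an associative algebra. -/
def Emb (B : L [⋀^Fin n]→ₗ[K] L) : Prop :=
  ∃ (A : Type u) (_ : Ring A) (_ : Algebra K A) (j : L →ₗ[K] A), Function.Injective j ∧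
    ∀ v : Fin n → L, j (B v) = altProd (fun k => j (v k))

theorem emb_of_consts (b : Basis (Fin (n + 1)) K L) (B : L [⋀^Fin n]→ₗ[K] L)
    (h : ∃ (A : Type u) (_ : Ring A) (_ : Algebra K A) (x : Fin (n + 1) → A),
      LinearIndependent K x ∧
      ∀ j : Fin (n + 1), altProd (fun k => x (j.succAbove k)) = ∑ k, cc b B j k • x k) :
    Emb B := by
  obtain ⟨A, _, _, x, hx, hr⟩ := h
  refine ⟨A, inferInstance, inferInstance, b.constr K x, constr_injective b x hx,
    hom_of_basis b B x fun j => ?_⟩
  rw [hr j, Basis.constr_apply_fintype]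
  rfl

/-- The three cases in which the construction works over the given field. -/
theorem emb_cases (hn : 3 ≤ n) (e : Basis (Fin (n + 1)) K L) (B : L [⋀^Fin n]→ₗ[K] L)
    (h : (∀ f g, TF e B f g = 0) ∨ (∃ f, TF e B f f = 0 ∧ ∃ g, TF e B f g ≠ 0) ∨
      (4 ≤ n ∧ ∃ f, TF e B f f ≠ 0 ∧ ∀ g g', TF e B f g = 0 → TF e B g g' = 0)) : Emb B := by
  rcases h with h | ⟨f, hff, g, hfg⟩ | ⟨hn4, f, hff, hker⟩
  · apply emb_of_consts e B
    exact exists_alg hn (cc e B) (data_zero hn _ fun j k => by rw [TT_cc, h])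
  · have hli : LinearIndependent K ![g, f] := by
      rw [LinearIndependent.pair_iff]
      intro s t hst
      have h1 := congrArg (TF e B f) hst
      rw [map_add, map_smul, map_smul, hff, smul_zero, add_zero, map_zero, smul_eq_mul] at h1
      have hs : s = 0 := by
        rcases mul_eq_zero.mp h1 with h2 | h2
        · exact h2
        · exact absurd h2 hfg
      refine ⟨hs, ?_⟩
      rw [hs, zero_smul, zero_add] at hst
      rcases smul_eq_zero.mp hst with h2 | h2
      · exact h2
      · rw [h2, map_zero, LinearMap.zero_apply] at hfg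
        exact absurd rfl hfg
    let s : Fin 2 ↪ Fin (n + 1) := ⟨![0, Fin.last n], by
      intro a b hab
      have hne := last_ne_zero' hn
      fin_cases a <;> fin_cases b
      · rfl
      · exact absurd hab.symm hne
      · exact absurd hab hne
      · rfl⟩
    obtain ⟨β', hβ'⟩ := exists_basis e.dualBasis ![g, f] hli s
    have h0 : β' 0 = g := hβ' 0
    have hl : β' (Fin.last n) = f := hβ' 1
    obtain ⟨β, hβ0, hβk, hβ⟩ := adjust β' 0 (TF e B f) (by rw [h0]; exact hfg)
    obtain ⟨b, hb⟩ := exists_predual e β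
    have hdet : e.det b ≠ 0 := (e.isUnit_det b).ne_zero
    have hbl : b.coord (Fin.last n) = f := by
      rw [hb, hβ _ (by rw [hl]; exact hff), hl]
    apply emb_of_consts b B
    refine exists_alg hn (cc b B) (data_hyp hn _ (fun k hk => ?_) ?_)
    · rw [TT_cc, TF_change e b, hbl, hb, hβk k hk, mul_zero]
    · rw [TT_cc, TF_change e b, hbl, hb, hβ0, h0]
      exact mul_ne_zero hdet hfg
  · have hli : LinearIndependent K ![f] := by
      have hf : f ≠ 0 := by
        rintro rfl
        exact hff (map_zero _)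
      rw [linearIndependent_unique_iff]
      exact hf
    let κ : Fin (n + 1) := ⟨2, by omega⟩
    let s : Fin 1 ↪ Fin (n + 1) := ⟨fun _ => κ, fun a b _ => Subsingleton.elim a b⟩
    obtain ⟨β', hβ'⟩ := exists_basis e.dualBasis ![f] hli s
    have h0 : β' κ = f := hβ' 0
    obtain ⟨β, hβ0, hβk, hβ⟩ := adjust β' κ (TF e B f) (by rw [h0]; exact hff)
    obtain ⟨b, hb⟩ := exists_predual e β
    have hbκ : b.coord κ = f := by rw [hb, hβ0, h0]
    apply emb_of_consts b B
    refine exists_alg hn (cc b B) (data_sq (cc b B) κ le_rfl (by simp only [κ]; omega)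
      fun j k hjk => ?_)
    rw [TT_cc, TF_change e b]
    by_cases hj : j = κ
    · have hk : k ≠ κ := fun hk => hjk ⟨hj, hk⟩
      rw [hj, hbκ, hb, hβk k hk, mul_zero]
    · rw [hb, hker _ _ (hβk j hj), mul_zero]

/-- Over an algebraically closed field one of the cases holds. -/
theorem trichotomy [IsAlgClosed K] (e : Fin (n + 1) → L) (B : L [⋀^Fin n]→ₗ[K] L) :
    (∀ f g, TF e B f g = 0) ∨ (∃ f, TF e B f f = 0 ∧ ∃ g, TF e B f g ≠ 0) ∨
      (∃ f, TF e B f f ≠ 0 ∧ (∀ g g', TF e B f g = 0 → TF e B g g' = 0)) := by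
  by_cases hz : ∀ f g, TF e B f g = 0
  · exact Or.inl hz
  right
  by_cases ha : ∀ f, TF e B f f = 0
  · left
    push Not at hz
    obtain ⟨f, g, hfg⟩ := hz
    exact ⟨f, ha f, g, hfg⟩
  push Not at ha
  obtain ⟨f, hf⟩ := ha
  by_cases hk : ∀ g g', TF e B f g = 0 → TF e B g g' = 0
  · exact Or.inr ⟨f, hf, hk⟩
  left
  push Not at hk
  obtain ⟨g, g', h1, h2⟩ := hk
  by_cases hg : TF e B g g = 0
  · exact ⟨g, hg, g', h2⟩
  obtain ⟨z, hz'⟩ := IsAlgClosed.exists_eq_mul_self (- (TF e B f f) / TF e B g g)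
  have hodd : ((-1 : K) ^ n) = -1 ∨ ((-1 : K) ^ n) = 1 := by
    rcases neg_one_pow_eq_or K n with h | h
    · exact Or.inr h
    · exact Or.inl h
  have hflip : TF e B g f = 0 := by
    rw [TF_apply] at h1 ⊢
    rcases hodd with h | h
    · rw [h] at h1 ⊢
      linear_combination h1
    · rw [h] at h1 ⊢
      linear_combination - h1
  refine ⟨f + z • g, ?_, f, ?_⟩
  · simp only [map_add, map_smul, LinearMap.add_apply, LinearMap.smul_apply, smul_eq_mul, h1,
      hflip]
    have : z * z * TF e B g g = - TF e B f f := by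
      rw [← hz']
      field_simp
    linear_combination this
  · simp only [map_add, map_smul, LinearMap.add_apply, LinearMap.smul_apply, smul_eq_mul,
      hflip, mul_zero, add_zero]
    exact hf

end form

end Pool.Agent.Y146.PZ
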