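import Pool.Agent.Y146.PZ.Form

/-!
# The embedding over an arbitrary field
-/

set_option autoImplicit false

namespace Pool.Agent.Y146.PZ

open Pool.Agent.H198R3 Pool.Agent.H198R3.AltProd Module

universe u v

section consts

variable {K : Type u} [Field K] {n : ℕ}

/-- The minors. -/
noncomputable def mnr (K : Type u) [Field K] (n : ℕ) (j : Fin (n + 1)) :
    (Fin (n + 1) → K) [⋀^Fin n]→ₗ[K] K :=
  (Matrix.detRowAlternating (n := Fin n) (R := K)).compLinearMap
    (LinearMap.funLeft K K j.succAbove)

theorem mnr_apply (i j : Fin (n + 1)) :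
    mnr K n j (fun k => Pi.basisFun K (Fin (n + 1)) (i.succAbove k)) = if i = j then 1 else 0 := by
  by_cases hk : i = j
  · subst hk
    rw [if_pos rfl]
    have : (fun l : Fin n => (LinearMap.funLeft K K i.succAbove)
        ((Pi.basisFun K (Fin (n + 1))) (i.succAbove l))) = (1 : Matrix (Fin n) (Fin n) K) := by
      ext a b
      rw [LinearMap.funLeft_apply, Pi.basisFun_apply, Matrix.one_apply]
      by_cases hab : a = b
      · subst hab
        simp
      · rw [if_neg hab, Pi.single_eq_of_ne]
        intro h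
        exact hab (Fin.succAbove_right_injective h).symm
    change Matrix.det (fun l : Fin n => (LinearMap.funLeft K K i.succAbove)
        ((Pi.basisFun K (Fin (n + 1))) (i.succAbove l))) = 1
    rw [this, Matrix.det_one]
  · rw [if_neg hk]
    obtain ⟨l, hl⟩ := Fin.exists_succAbove_eq (Ne.symm hk)
    have : Matrix.det (fun l : Fin n => (LinearMap.funLeft K K j.succAbove)
        ((Pi.basisFun K (Fin (n + 1))) (i.succAbove l))) = 0 := by
      apply Matrix.det_eq_zero_of_row_eq_zero l
      intro b
      rw [LinearMap.funLeft_apply, Pi.basisFun_apply, Pi.single_eq_of_ne]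
      rw [hl]
      exact Fin.succAbove_ne _ _
    exact this

/-- The bracket with given structure constants. -/
noncomputable def Br (c : Fin (n + 1) → Fin (n + 1) → K) :
    (Fin (n + 1) → K) [⋀^Fin n]→ₗ[K] (Fin (n + 1) → K) :=
  ∑ j, (LinearMap.toSpanSingleton K (Fin (n + 1) → K) (c j)).compAlternatingMap (mnr K n j)

theorem Br_apply (c : Fin (n + 1) → Fin (n + 1) → K) (i : Fin (n + 1)) :
    Br c (fun k => Pi.basisFun K (Fin (n + 1)) (i.succAbove k)) = c i := by
  have hs : ∀ (s : Finset (Fin (n + 1))) (f : Fin (n + 1) →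
      (Fin (n + 1) → K) [⋀^Fin n]→ₗ[K] (Fin (n + 1) → K)) (v : Fin n → Fin (n + 1) → K),
      (∑ j ∈ s, f j) v = ∑ j ∈ s, f j v := by
    intro s f v
    induction s using Finset.induction_on with
    | empty => rfl
    | insert a s ha ih =>
      rw [Finset.sum_insert ha, Finset.sum_insert ha, AlternatingMap.add_apply, ih]
  rw [Br, hs, Finset.sum_eq_single i]
  · rw [LinearMap.compAlternatingMap_apply, mnr_apply, if_pos rfl,
      LinearMap.toSpanSingleton_apply, one_smul]
  · intro j _ hj
    rw [LinearMap.compAlternatingMap_apply, mnr_apply, if_neg (Ne.symm hj), map_zero]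
  · intro h
    exact absurd (Finset.mem_univ _) h

theorem cc_Br (c : Fin (n + 1) → Fin (n + 1) → K) :
    cc (Pi.basisFun K (Fin (n + 1))) (Br c) = c := by
  funext j k
  rw [cc, Br_apply, Pi.basisFun_repr]

/-- An algebra with given structure constants. -/
def Alg (c : Fin (n + 1) → Fin (n + 1) → K) : Prop :=
  ∃ (A : Type u) (_ : Ring A) (_ : Algebra K A) (x : Fin (n + 1) → A),
    LinearIndependent K x ∧
    ∀ j : Fin (n + 1), altProd (fun k => x (j.succAbove k)) = ∑ k, c j k • x k

theorem alg_of_emb (c : Fin (n + 1) → Fin (n + 1) → K) (h : Emb (Br c)) : Alg c := by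
  obtain ⟨A, _, _, φ, hφ, hB⟩ := h
  let e := Pi.basisFun K (Fin (n + 1))
  refine ⟨A, inferInstance, inferInstance, fun k => φ (e k), ?_, fun j => ?_⟩
  · exact e.linearIndependent.map' φ (LinearMap.ker_eq_bot.mpr hφ)
  · rw [← hB, Br_apply]
    have h1 : c j = ∑ k, c j k • e k := by
      conv_lhs => rw [← e.sum_repr (c j)]
      refine Finset.sum_congr rfl fun k _ => ?_
      rw [Pi.basisFun_repr]
    conv_lhs => rw [h1, map_sum]
    refine Finset.sum_congr rfl fun k _ => ?_
    rw [map_smul]

theorem altProd_three {A : Type*} [Ring A] (a : Fin 3 → A) :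
    altProd a = a 0 * (a 1 * a 2 - a 2 * a 1) - a 1 * (a 0 * a 2 - a 2 * a 0) +
      a 2 * (a 0 * a 1 - a 1 * a 0) := by
  have h1 : ∀ b : Fin 1 → A, altProd b = b 0 := by
    intro b
    simp [altProd]
  have h2 : ∀ b : Fin 2 → A, altProd b = b 0 * b 1 - b 1 * b 0 := by
    intro b
    rw [altProd_first, Fin.sum_univ_two, h1, h1]
    simp [Fin.succAbove, sub_eq_add_neg]
  rw [altProd_first, Fin.sum_univ_three, h2, h2, h2]
  simp [Fin.succAbove, sub_eq_add_neg]

/-- The rank one symmetric case for `n = 3`: nilpotent matrices. -/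
theorem alg_nil (c : Fin 4 → Fin 4 → K) (h : ∀ j k, ¬ (j = 0 ∧ k = 0) → c j k = 0)
    (h0 : c 0 0 ≠ 0) : Alg (n := 3) c := by
  let x : Fin 4 → Matrix (Fin 4) (Fin 4) K :=
    ![(c 0 0)⁻¹ • Matrix.single 0 3 1, Matrix.single 0 1 1, Matrix.single 1 2 1,
      Matrix.single 2 3 1]
  refine ⟨Matrix (Fin 4) (Fin 4) K, inferInstance, inferInstance, x, ?_, ?_⟩
  · rw [Fintype.linearIndependent_iff]
    intro g hg
    rw [Fin.sum_univ_four] at hg
    have e03 := congrFun (congrFun hg 0) 3
    have e01 := congrFun (congrFun hg 0) 1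
    have e12 := congrFun (congrFun hg 1) 2
    have e23 := congrFun (congrFun hg 2) 3
    simp [x] at e03 e01 e12 e23
    intro i
    fin_cases i
    · rcases e03 with h1 | h1
      · exact h1
      · exact absurd h1 h0
    · exact e01
    · exact e12
    · exact e23
  · intro j
    rw [altProd_three, Fin.sum_univ_four]
    fin_cases j
    · simp [x, Fin.succAbove, h 0 1 (by simp), h 0 2 (by simp), h 0 3 (by simp), h0]
    · simp [x, Fin.succAbove, h 1 0 (by simp), h 1 1 (by simp), h 1 2 (by simp),
        h 1 3 (by simp)]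
    · simp [x, Fin.succAbove, h 2 0 (by simp), h 2 1 (by simp), h 2 2 (by simp),
        h 2 3 (by simp)]
    · simp [x, Fin.succAbove, h 3 0 (by simp), h 3 1 (by simp), h 3 2 (by simp),
        h 3 3 (by simp)]

/-- All two by two minors vanish and some entry does not: the rank is one. -/
theorem rank_one {m : ℕ} (M : Matrix (Fin m) (Fin m) K)
    (h : ∀ i j k l, M i j * M k l = M i l * M k j) (a b : Fin m) (hab : M a b ≠ 0) :
    M.rank = 1 := by
  have h1 : M = Matrix.vecMulVec (fun i => M i b) (fun j => M a j / M a b) := by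
    ext i j
    rw [Matrix.vecMulVec_apply]
    field_simp
    linear_combination h i j a b
  have h2 : M.rank ≤ 1 := by
    rw [h1]
    exact Matrix.rank_vecMulVec_le _ _
  have h3 : M.rank ≠ 0 := by
    intro h0
    apply hab
    have h4 : M.mulVecLin = 0 := by
      rw [Matrix.rank, Module.finrank_zero_iff] at h0
      rw [← LinearMap.range_eq_bot]
      exact Submodule.subsingleton_iff_eq_bot.mp h0
    have h5 := congrFun (congrArg (fun f => f (Pi.single b 1)) h4) a
    simpa using h5
  omega

/-- Existence of the algebra over an algebraically closed field. -/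
theorem alg_closed [IsAlgClosed K] (hn : 3 ≤ n) (c : Fin (n + 1) → Fin (n + 1) → K)
    (hc : n = 3 → (∀ j k : Fin (n + 1), (-1) ^ (j : ℕ) * c j k = (-1) ^ (k : ℕ) * c k j) ∨
      (∀ j k, TT c j k = 0) ∨ ∃ i j k l, TT c i j * TT c k l ≠ TT c i l * TT c k j) :
    Alg c := by
  apply alg_of_emb
  set e := Pi.basisFun K (Fin (n + 1)) with he
  have hTT : ∀ j k, TT c j k = TF e (Br c) (e.coord j) (e.coord k) := by
    intro j k
    rw [← TT_cc, cc_Br]
  rcases trichotomy e (Br c) with h | h | ⟨f, hf, hk⟩
  · exact emb_cases hn e (Br c) (Or.inl h)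
  · exact emb_cases hn e (Br c) (Or.inr (Or.inl h))
  · by_cases hn4 : 4 ≤ n
    · exact emb_cases hn e (Br c) (Or.inr (Or.inr ⟨hn4, f, hf, hk⟩))
    have hn3 : n = 3 := by omega
    have hrk : ∀ g g', TF e (Br c) g g' =
        TF e (Br c) f g / TF e (Br c) f f * TF e (Br c) f g' := by
      intro g g'
      have h1 := hk (g - (TF e (Br c) f g / TF e (Br c) f f) • f) g' (by
        rw [map_sub, map_smul, smul_eq_mul, div_mul_cancel₀ _ hf, sub_self])
      rw [map_sub, map_smul, LinearMap.sub_apply, LinearMap.smul_apply, smul_eq_mul,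
        sub_eq_zero] at h1
      exact h1
    rcases hc hn3 with hs | hz | ⟨i, j, k, l, hm⟩
    · subst hn3
      have hflip : SS e (Br c) = (SS e (Br c)).flip := by
        apply LinearMap.ext_basis e.dualBasis e.dualBasis
        intro i j
        rw [LinearMap.flip_apply, Basis.coe_dualBasis, SS_coord, SS_coord, cc_Br]
        exact hs i j
      have hflip' : ∀ g g', SS e (Br c) g g' = SS e (Br c) g' g := fun g g' => by
        conv_lhs => rw [hflip]
        rfl
      have hT2 : ∀ g g', TF e (Br c) g g' = 2 * SS e (Br c) g g' := by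
        intro g g'
        rw [TF_apply, hflip' g' g]
        norm_num
        ring
      have h2 : (2 : K) ≠ 0 := by
        intro h2
        apply hf
        rw [hT2, h2, zero_mul]
      have hli : LinearIndependent K ![f] := by
        have hf0 : f ≠ 0 := by
          rintro rfl
          exact hf (map_zero _)
        rw [linearIndependent_unique_iff]
        exact hf0
      let s : Fin 1 ↪ Fin (3 + 1) := ⟨fun _ => 0, fun a b _ => Subsingleton.elim a b⟩
      obtain ⟨β', hβ'⟩ := exists_basis e.dualBasis ![f] hli s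
      have h0 : β' 0 = f := hβ' 0
      obtain ⟨β, hβ0, hβk, hβ⟩ := adjust β' 0 (TF e (Br c) f) (by rw [h0]; exact hf)
      obtain ⟨b, hb⟩ := exists_predual e β
      have hdet : e.det b ≠ 0 := (e.isUnit_det b).ne_zero
      have hb0 : b.coord 0 = f := by rw [hb, hβ0, h0]
      have hcb : ∀ j k : Fin (3 + 1), (-1) ^ (j : ℕ) * cc b (Br c) j k =
          e.det b * (TF e (Br c) (b.coord j) (b.coord k) / 2) := by
        intro j k
        rw [← SS_coord, SS_change e b, hT2]
        field_simp
      apply emb_of_consts b (Br c)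
      refine alg_nil (cc b (Br c)) (fun j k hjk => ?_) ?_
      · have h3 : TF e (Br c) (b.coord j) (b.coord k) = 0 := by
          by_cases hj : j = 0
          · have hk0 : k ≠ 0 := fun hk0 => hjk ⟨hj, hk0⟩
            rw [hj, hb0, hb, hβk k hk0]
          · rw [hb, hk _ _ (hβk j hj)]
        have h4 := hcb j k
        rw [h3, zero_div, mul_zero] at h4
        rcases mul_eq_zero.mp h4 with h5 | h5
        · exact absurd h5 (pow_ne_zero _ (neg_ne_zero.mpr one_ne_zero))
        · exact h5
      · intro h3
        have h4 := hcb 0 0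
        rw [h3, mul_zero, hb0] at h4
        have h5 := (mul_ne_zero hdet (div_ne_zero hf h2))
        exact h5 h4.symm
    · exfalso
      have h1 : TF e (Br c) = 0 := by
        apply LinearMap.ext_basis e.dualBasis e.dualBasis
        intro i j
        rw [Basis.coe_dualBasis, ← hTT, hz]
        rfl
      exact hf (by rw [h1]; rfl)
    · exfalso
      apply hm
      simp only [hTT]
      rw [hrk (e.coord i) (e.coord j), hrk (e.coord k) (e.coord l),
        hrk (e.coord i) (e.coord l), hrk (e.coord k) (e.coord j)]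
      ring

end consts

section descent

variable {F : Type u} [Field F] {L : Type v} [AddCommGroup L] [Module F L] {n : ℕ}

theorem TT_map {K : Type u} [Field K] (ι : F →+* K) (c : Fin (n + 1) → Fin (n + 1) → F)
    (j k : Fin (n + 1)) : TT (fun a b => ι (c a b)) j k = ι (TT c j k) := by
  simp [TT]

/-- **The embedding theorem**, with a condition on minors for `n = 3`. -/
theorem embed_all' (hn : 3 ≤ n) (e : Basis (Fin (n + 1)) F L) (B : L [⋀^Fin n]→ₗ[F] L)
    (hc : n = 3 → (∀ j k : Fin (n + 1),
      (-1) ^ (j : ℕ) * cc e B j k = (-1) ^ (k : ℕ) * cc e B k j) ∨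
      (∀ j k, TT (cc e B) j k = 0) ∨
      ∃ i j k l, TT (cc e B) i j * TT (cc e B) k l ≠ TT (cc e B) i l * TT (cc e B) k j) :
    Emb B := by
  let K := AlgebraicClosure F
  let ι : F →+* K := algebraMap F K
  obtain ⟨A, _, _, x, hx, hr⟩ := alg_closed (K := K) hn (fun a b => ι (cc e B a b)) (by
    intro hn3
    rcases hc hn3 with h | h | ⟨i, j, k, l, h⟩
    · left
      intro j k
      have := congrArg ι (h j k)
      simpa using this
    · right
      left
      intro j k
      rw [TT_map ι, h, map_zero]
    · right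
      right
      refine ⟨i, j, k, l, fun h1 => h ?_⟩
      simp only [TT_map ι] at h1
      rw [← map_mul, ← map_mul] at h1
      exact ι.injective h1)
  let _ : Algebra F A := Algebra.compHom A ι
  have : IsScalarTower F K A := IsScalarTower.of_algebraMap_eq' rfl
  apply emb_of_consts e B
  refine ⟨A, inferInstance, inferInstance, x, hx.restrict_scalars' F, fun j => ?_⟩
  rw [hr j]
  refine Finset.sum_congr rfl fun k _ => ?_
  exact algebraMap_smul K _ _

/-- **The embedding theorem.** -/
theorem embed_all (hn : 3 ≤ n) (e : Basis (Fin (n + 1)) F L) (B : L [⋀^Fin n]→ₗ[F] L)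
    (hc : n = 3 → (∀ j k : Fin (n + 1),
      (-1) ^ (j : ℕ) * cc e B j k = (-1) ^ (k : ℕ) * cc e B k j) ∨
      (Matrix.of (TT (cc e B))).rank ≠ 1) : Emb B := by
  apply embed_all' hn e B
  intro hn3
  rcases hc hn3 with h | h
  · exact Or.inl h
  · right
    by_cases hz : ∀ j k, TT (cc e B) j k = 0
    · exact Or.inl hz
    · right
      push Not at hz
      obtain ⟨a, b, hab⟩ := hz
      by_contra hcon
      push Not at hcon
      exact h (rank_one _ (fun i j k l => hcon i j k l) a b hab)

end descent

end Pool.Agent.Y146.PZ
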