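import Pool.Agent.Y146.PZ.Alg

/-!
# The two kinds of quadratic leading words
-/

set_option autoImplicit false

namespace Pool.Agent.Y146.PZ

open Pool.Agent.H198R3 Pool.Agent.H198R3.Diamond Pool.Agent.H198R3.Words
  Pool.Agent.H198R3.AltProd Pool.Agent.H198R3.PozAlg

universe u

variable {F : Type u} [Field F] {n : ℕ}

theorem lwl'_eq (i : Option (Fin (n + 1))) : lwl' [Fin.last n, 0] i = lwl i := by
  cases i <;> rfl

theorem last_ne_zero' (hn : 3 ≤ n) : (Fin.last n : Fin (n + 1)) ≠ 0 := by
  intro h0
  have := congrArg Fin.val h0
  simp at this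
  omega

theorem ovl_hyp (hn : 3 ≤ n) : Ovl [Fin.last n, (0 : Fin (n + 1))] := by
  intro i j c b b' h
  rw [lwl'_eq, lwl'_eq] at h
  rcases overlap hn i j c b b' h with h1 | ⟨d, h1, h2⟩ | h1
  · exact Or.inl h1
  · exact Or.inr (Or.inl ⟨d, by rw [lwl'_eq]; exact h1, by rw [lwl'_eq]; exact h2⟩)
  · exact Or.inr (Or.inr (Or.inl h1))

theorem miss_head (hn : 3 ≤ n) (j : Fin (n + 1)) :
    ∃ x t, miss j = x :: t ∧ n ≤ (x : ℕ) + 1 := by
  have hlen := miss_length j
  match hm : miss j with
  | [] => rw [hm] at hlen; simp at hlen; omega
  | x :: t =>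
    refine ⟨x, t, rfl, ?_⟩
    by_contra hx
    push Not at hx
    have h1 : Fin.last n ∈ x :: t → Fin.last n ≤ x := by
      intro h
      have hp := miss_pairwise j
      rw [hm, List.pairwise_cons] at hp
      rcases List.mem_cons.mp h with h | h
      · exact h.le
      · exact (hp.1 _ h).le
    have h2 : (⟨n - 1, by omega⟩ : Fin (n + 1)) ∈ x :: t → (⟨n - 1, by omega⟩ : Fin (n + 1)) ≤ x := by
      intro h
      have hp := miss_pairwise j
      rw [hm, List.pairwise_cons] at hp
      rcases List.mem_cons.mp h with h | h
      · exact h.le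
      · exact (hp.1 _ h).le
    by_cases hj : Fin.last n = j
    · have h3 : (⟨n - 1, by omega⟩ : Fin (n + 1)) ∈ miss j := by
        rw [mem_miss]
        intro h
        have := congrArg Fin.val (h.trans hj.symm)
        simp at this
        omega
      rw [hm] at h3
      have := h2 h3
      rw [Fin.le_def] at this
      simp at this
      omega
    · have h3 : Fin.last n ∈ miss j := (mem_miss _ _).mpr hj
      rw [hm] at h3
      have := h1 h3
      rw [Fin.le_def] at this
      simp at this
      omega

theorem miss_tail (hn : 3 ≤ n) (j : Fin (n + 1)) :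
    ∃ (t : List (Fin (n + 1))) (x : Fin (n + 1)), miss j = t ++ [x] ∧ (x : ℕ) ≤ 1 := by
  have hlen := miss_length j
  have hne : miss j ≠ [] := by
    intro h
    rw [h] at hlen
    simp at hlen
    omega
  obtain ⟨t, x, hm⟩ : ∃ (t : List (Fin (n + 1))) (x : Fin (n + 1)), miss j = t ++ [x] :=
    ⟨_, _, (List.dropLast_append_getLast hne).symm⟩
  refine ⟨t, x, hm, ?_⟩
  by_contra hx
  push Not at hx
  have h1 : ∀ z : Fin (n + 1), z ∈ miss j → x ≤ z := by
    intro z h
    have hp := miss_pairwise j
    rw [hm, List.pairwise_append] at hp
    rw [hm, List.mem_append] at h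
    rcases h with h | h
    · exact (hp.2.2 z h x (by simp)).le
    · rw [List.mem_singleton] at h
      exact h.ge
  by_cases hj : (0 : Fin (n + 1)) = j
  · have h3 : (⟨1, by omega⟩ : Fin (n + 1)) ∈ miss j := by
      rw [mem_miss]
      intro h
      have := congrArg Fin.val (h.trans hj.symm)
      simp at this
    have := h1 _ h3
    rw [Fin.le_def] at this
    simp at this
    omega
  · have h4 : (x : ℕ) ≤ ((0 : Fin (n + 1)) : ℕ) := h1 _ ((mem_miss _ _).mpr hj)
    rw [Fin.val_zero] at h4
    omega

/-- The word `k k` with `2 ≤ k ≤ n - 2`. -/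
theorem ovl_sq (k : Fin (n + 1)) (hk : 2 ≤ (k : ℕ)) (hk' : (k : ℕ) + 2 ≤ n) :
    Ovl [k, k] := by
  have hn : 3 ≤ n := by omega
  intro i j c b b' h
  cases i with
  | some i =>
    cases j with
    | some j =>
      have h' : lwl (some i) ++ b = c ++ lwl (some j) ++ b' := h
      rcases overlap hn (some i) (some j) c b b' h' with h1 | ⟨d, h1, h2⟩ | h1
      · exact Or.inl h1
      · exact Or.inr (Or.inl ⟨d, h1, h2⟩)
      · exact Or.inr (Or.inr (Or.inl h1))
    | none =>
      have h' : miss i ++ b = c ++ ([k, k] ++ b') := by
        rw [← List.append_assoc]; exact h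
      right; left
      rcases List.append_eq_append_iff.mp h' with ⟨d, hd1, hd2⟩ | ⟨d, hd1, hd2⟩
      · exact ⟨d, hd1, by rw [hd2, List.append_assoc]; rfl⟩
      · match d, hd1, hd2 with
        | [], hd1, hd2 =>
          refine ⟨[], ?_, ?_⟩
          · rw [List.append_nil] at hd1 ⊢
            exact hd1.symm
          · exact hd2.symm
        | [x], hd1, hd2 =>
          exfalso
          simp only [List.cons_append, List.cons.injEq] at hd2
          obtain ⟨t, z, ht, hz⟩ := miss_tail hn i
          rw [ht] at hd1
          have := List.append_inj_right' hd1 rfl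
          simp only [List.cons.injEq, and_true] at this
          rw [this, ← hd2.1] at hz
          omega
        | x :: z :: d, hd1, hd2 =>
          exfalso
          simp only [List.cons_append, List.cons.injEq] at hd2
          obtain ⟨rfl, rfl, -⟩ := hd2
          have hp := miss_pairwise i
          rw [hd1, List.pairwise_append, List.pairwise_cons] at hp
          exact lt_irrefl _ (hp.2.1.1 k (by simp))
  | none =>
    cases j with
    | some j =>
      have h' : [k, k] ++ b = c ++ (miss j ++ b') := by
        rw [← List.append_assoc]; exact h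
      right; left
      obtain ⟨x, t, ht, hx⟩ := miss_head hn j
      have hlen := miss_length j
      match c, h' with
      | [], h' =>
        exfalso
        rw [ht] at h'
        simp only [List.nil_append, List.cons_append, List.cons.injEq] at h'
        rw [← h'.1] at hx
        omega
      | [z], h' =>
        exfalso
        rw [ht] at h'
        simp only [List.nil_append, List.cons_append, List.cons.injEq] at h'
        rw [← h'.2.1] at hx
        omega
      | z :: z' :: c, h' =>
        simp only [List.nil_append, List.cons_append, List.cons.injEq] at h'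
        obtain ⟨rfl, rfl, h'⟩ := h'
        exact ⟨c, rfl, by rw [h', List.append_assoc]; rfl⟩
    | none =>
      have h' : [k, k] ++ b = c ++ ([k, k] ++ b') := by
        rw [← List.append_assoc]; exact h
      match c, h' with
      | [], h' =>
        left
        simp only [List.nil_append, List.cons_append, List.cons.injEq, true_and] at h'
        exact ⟨rfl, rfl, h'⟩
      | [z], h' =>
        right; right; right
        simp only [List.nil_append, List.cons_append, List.cons.injEq] at h'
        exact ⟨rfl, rfl, k, rfl, by rw [h'.1], h'.2.2⟩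
      | z :: z' :: c, h' =>
        right; left
        simp only [List.nil_append, List.cons_append, List.cons.injEq] at h'
        obtain ⟨rfl, rfl, h'⟩ := h'
        exact ⟨c, rfl, by rw [h', lwl', List.append_assoc]; rfl⟩

end Pool.Agent.Y146.PZ
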