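import Pool.Agent.Y146.PZ.Main

/-!
# Explicit operators for `n = 3` in the rank one case
-/

set_option autoImplicit false

namespace Pool.Agent.Y146.PZ

open Pool.Agent.H198R3 Pool.Agent.H198R3.AltProd Module

universe u

variable {K : Type u} [Field K]

/-- Two-sided recursion. -/
theorem exists_orbit {α : Type*} (a : α) (e : ℤ → Equiv.Perm α) :
    ∃ s : ℤ → α, ∀ n, s (n + 1) = e n (s n) := by
  let f : ℕ → α := fun n => Nat.rec a (fun k x => e (k : ℤ) x) n
  let g : ℕ → α := fun n => Nat.rec ((e (-1)).symm a)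
    (fun k x => (e (-((k : ℤ) + 2))).symm x) n
  have hf : ∀ k : ℕ, f (k + 1) = e (k : ℤ) (f k) := fun k => rfl
  have hg : ∀ k : ℕ, g (k + 1) = (e (-((k : ℤ) + 2))).symm (g k) := fun k => rfl
  refine ⟨fun n => match n with
    | Int.ofNat k => f k
    | Int.negSucc k => g k, ?_⟩
  intro n
  match n with
  | Int.ofNat k => exact hf k
  | Int.negSucc 0 =>
    change f 0 = e (-1) (g 0)
    change a = e (-1) ((e (-1)).symm a)
    rw [Equiv.apply_symm_apply]
  | Int.negSucc (k + 1) =>
    have h1 : (Int.negSucc (k + 1) : ℤ) + 1 = Int.negSucc k := by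
      rw [Int.negSucc_eq, Int.negSucc_eq]
      push_cast
      ring
    have h2 : (Int.negSucc (k + 1) : ℤ) = -((k : ℤ) + 2) := by
      rw [Int.negSucc_eq]
      push_cast
      ring
    rw [h1]
    change g k = e (Int.negSucc (k + 1)) (g (k + 1))
    rw [hg, h2, Equiv.apply_symm_apply]

/-- Second order linear recurrences over the integers. -/
theorem exists_rec (A B C : ℤ → K) (s : K) (hA : ∀ n, A n ≠ 0) (hC : ∀ n, C n ≠ 0) :
    ∃ b : ℤ → K, ∀ n, A n * b (n + 1) + B n * b n + C n * b (n - 1) = s := by
  let e : ℤ → Equiv.Perm (K × K) := fun n =>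
    { toFun := fun p => (p.2, (s - B n * p.2 - C n * p.1) / A n)
      invFun := fun p => ((s - B n * p.1 - A n * p.2) / C n, p.1)
      left_inv := fun p => by
        have h1 := hA n
        have h2 := hC n
        apply Prod.ext
        · simp only
          field_simp
          ring
        · rfl
      right_inv := fun p => by
        have h1 := hA n
        have h2 := hC n
        apply Prod.ext
        · rfl
        · simp only
          field_simp
          ring }
  obtain ⟨t, ht⟩ := exists_orbit ((0 : K), (0 : K)) e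
  refine ⟨fun n => (t n).2, fun n => ?_⟩
  have h1 : (t (n + 1)).2 = (s - B n * (t n).2 - C n * (t n).1) / A n := by
    rw [ht n]
    rfl
  have h2 : (t n).1 = (t (n - 1)).2 := by
    have h3 := ht (n - 1)
    rw [sub_add_cancel] at h3
    rw [h3]
    rfl
  have h4 := hA n
  simp only
  rw [h1, h2]
  field_simp
  ring

/-- The structure constants of the normal form. -/
def nf (σ ν μ : K) : Fin 4 → Fin 4 → K :=
  ![![σ, 0, 0, μ], ![0, 0, -ν, 0], ![0, -ν, 0, 0], ![μ, 0, 0, 0]]

/-- weighted shifts -/
def opU (a : ℤ → K) : (ℤ → K) →ₗ[K] (ℤ → K) where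
  toFun f := fun n => a n * f (n + 1)
  map_add' f g := by funext n; simp only [Pi.add_apply]; ring
  map_smul' c f := by funext n; simp only [Pi.smul_apply, smul_eq_mul, RingHom.id_apply]; ring

/-- weighted shifts -/
def opD (a : ℤ → K) : (ℤ → K) →ₗ[K] (ℤ → K) where
  toFun f := fun n => a n * f (n - 1)
  map_add' f g := by funext n; simp only [Pi.add_apply]; ring
  map_smul' c f := by funext n; simp only [Pi.smul_apply, smul_eq_mul, RingHom.id_apply]; ring

/-- diagonal operators -/
def opC (a : ℤ → K) : (ℤ → K) →ₗ[K] (ℤ → K) where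
  toFun f := fun n => a n * f n
  map_add' f g := by funext n; simp only [Pi.add_apply]; ring
  map_smul' c f := by funext n; simp only [Pi.smul_apply, smul_eq_mul, RingHom.id_apply]; ring

/-- The operators. -/
def rp (a w r c b : ℤ → K) : Fin 4 → Module.End K ((ℤ → K) × (ℤ → K)) :=
  ![(LinearMap.snd K _ _).prod 0,
    ((opU a) ∘ₗ LinearMap.fst K _ _).prod ((opU w) ∘ₗ LinearMap.snd K _ _),
    ((opD fun _ => 1) ∘ₗ LinearMap.fst K _ _).prod ((opD r) ∘ₗ LinearMap.snd K _ _),
    ((opC b) ∘ₗ LinearMap.snd K _ _).prod ((opC c) ∘ₗ LinearMap.fst K _ _)]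

theorem alg_rep (σ ν μ : K) (a w r c b : ℤ → K)
    (H1 : ∀ n, c n * a n + a n * c (n + 1) - w n * c (n + 1) = ν * a n)
    (H2 : ∀ n, - (c n * w n) - w n * c (n + 1) + c n * a n = ν * w n)
    (H3 : ∀ n, c n + c (n - 1) - r n * c (n - 1) = ν)
    (H4 : ∀ n, - (c n * r n) - r n * c (n - 1) + c n = ν * r n)
    (H5 : ∀ n, w n * r (n + 1) - r n * w (n - 1) - a n * r (n + 1) + w (n - 1) + a n
      - a (n - 1) = μ)
    (H6 : ∀ n, (w n * r (n + 1) - r n * w (n - 1)) * c n + c n * (a n - a (n - 1))
      - w n * c (n + 1) + r n * c (n - 1) * a (n - 1) = μ * c n)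
    (H7 : ∀ n, (a n - a (n - 1)) * b n + b n * (w n * r (n + 1) - r n * w (n - 1))
      - a n * b (n + 1) * r (n + 1) + b (n - 1) * w (n - 1) = σ + μ * b n)
    (ha : a 0 ≠ 0) (hc : c 0 ≠ 0) : Alg (n := 3) (nf σ ν μ) := by
  refine ⟨Module.End K ((ℤ → K) × (ℤ → K)), inferInstance, inferInstance, rp a w r c b, ?_, ?_⟩
  · rw [Fintype.linearIndependent_iff]
    intro g hg
    rw [Fin.sum_univ_four] at hg
    have h1 : ∀ (f h : ℤ → K) (n : ℤ), g 0 * h n + g 1 * (a n * f (n + 1)) +
        g 2 * f (n - 1) + g 3 * (b n * h n) = 0 := by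
      intro f h n
      have := congrFun (congrArg Prod.fst (LinearMap.congr_fun hg (f, h))) n
      simpa [rp, opU, opD, opC] using this
    have h2 : ∀ (f h : ℤ → K) (n : ℤ), g 1 * (w n * h (n + 1)) +
        g 2 * (r n * h (n - 1)) + g 3 * (c n * f n) = 0 := by
      intro f h n
      have := congrFun (congrArg Prod.snd (LinearMap.congr_fun hg (f, h))) n
      simpa [rp, opU, opD, opC] using this
    have e3 : g 3 = 0 := by
      have := h2 (fun _ => 1) 0 0
      simp only [Pi.zero_apply, mul_zero, mul_one, zero_add] at this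
      rcases mul_eq_zero.mp this with h | h
      · exact h
      · exact absurd h hc
    have e0 : g 0 = 0 := by
      have := h1 0 (fun _ => 1) 0
      simpa [e3] using this
    have e1 : g 1 = 0 := by
      have := h1 (Pi.single 1 1) 0 0
      simp [e3] at this
      rcases this with h | h
      · exact h
      · exact absurd h ha
    have e2 : g 2 = 0 := by
      have := h1 (Pi.single 0 1) 0 1
      simpa [e3, e1] using this
    intro i
    fin_cases i
    · exact e0
    · exact e1
    · exact e2
    · exact e3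
  · intro j
    rw [altProd_three, Fin.sum_univ_four]
    fin_cases j
    · apply LinearMap.ext
      rintro ⟨f, g⟩
      apply Prod.ext
      · funext n
        simp [rp, opU, opD, opC, nf, Fin.succAbove]
        linear_combination g n * H7 n
      · funext n
        simp [rp, opU, opD, opC, nf, Fin.succAbove]
        linear_combination f n * H6 n
    · apply LinearMap.ext
      rintro ⟨f, g⟩
      apply Prod.ext
      · funext n
        simp [rp, opU, opD, opC, nf, Fin.succAbove]
        linear_combination (-f (n - 1)) * H3 n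
      · funext n
        simp [rp, opU, opD, opC, nf, Fin.succAbove]
        linear_combination (-g (n - 1)) * H4 n
    · apply LinearMap.ext
      rintro ⟨f, g⟩
      apply Prod.ext
      · funext n
        simp [rp, opU, opD, opC, nf, Fin.succAbove]
        linear_combination (-f (n + 1)) * H1 n
      · funext n
        simp [rp, opU, opD, opC, nf, Fin.succAbove]
        linear_combination (-g (n + 1)) * H2 n
    · apply LinearMap.ext
      rintro ⟨f, g⟩
      apply Prod.ext
      · funext n
        simp [rp, opU, opD, opC, nf, Fin.succAbove]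
        linear_combination g n * H5 n
      · funext n
        simp [rp, opU, opD, opC, nf, Fin.succAbove]

/-- An element which is not the negative of an integer. -/
theorem exists_t [IsAlgClosed K] : ∃ t : K, ∀ n : ℤ, t + n ≠ 0 := by
  have hfin : (∃ p : ℕ, 0 < p ∧ CharP K p) ∨ CharZero K := by
    obtain ⟨p, hp⟩ := CharP.exists K
    rcases Nat.eq_zero_or_pos p with h | h
    · right
      subst h
      exact CharP.charP_to_charZero K
    · exact Or.inl ⟨p, h, hp⟩
  rcases hfin with ⟨p, hp0, hp⟩ | h0
  · have : NeZero p := ⟨by omega⟩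
    have : Infinite K := IsAlgClosed.instInfinite
    have hr : (Set.range (ZMod.castHom (dvd_refl p) K)).Finite := Set.finite_range _
    obtain ⟨t, ht⟩ := hr.infinite_compl.nonempty
    refine ⟨t, fun n hn => ht ?_⟩
    refine ⟨((-n : ℤ) : ZMod p), ?_⟩
    rw [map_intCast]
    push_cast
    linear_combination (-1 : K) * hn
  · refine ⟨1 / 2, fun n hn => ?_⟩
    have h1 : ((1 + 2 * n : ℤ) : K) = 0 := by
      push_cast
      linear_combination 2 * hn
    rw [Int.cast_eq_zero] at h1
    omega

/-- The normal form with `ν ≠ 0` has a representation. -/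
theorem alg_nf [IsAlgClosed K] (σ ν μ : K) (hν : ν ≠ 0) : Alg (n := 3) (nf σ ν μ) := by
  obtain ⟨t, ht⟩ := exists_t (K := K)
  by_cases h3 : (3 : K) = 0
  · -- characteristic three
    let c : ℤ → K := fun n => ν * (t + n)
    have hc : ∀ n, c n ≠ 0 := fun n => mul_ne_zero hν (ht n)
    have hc1 : ∀ n, c (n + 1) = c n + ν := fun n => by
      simp only [c]
      push_cast
      ring
    have hc2 : ∀ n, c (n - 1) = c n - ν := fun n => by
      simp only [c]
      push_cast
      ring
    obtain ⟨z, hz, hz1⟩ : ∃ z : ℤ → K, (∀ n, z n ≠ 0) ∧ ∀ n, ν * (z n + z (n - 1)) = - μ := by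
      by_cases hμ : μ = 0
      · refine ⟨fun n => (-1) ^ n, fun n => zpow_ne_zero _ (neg_ne_zero.mpr one_ne_zero),
          fun n => ?_⟩
        simp only
        rw [zpow_sub_one₀ (neg_ne_zero.mpr one_ne_zero), hμ]
        rw [inv_neg, inv_one]
        ring
      · refine ⟨fun _ => μ / ν, fun n => div_ne_zero hμ hν, fun n => ?_⟩
        have : ν * (μ / ν + μ / ν) = 2 * μ := by
          field_simp
          ring
        rw [this]
        linear_combination μ * h3
    have e2 : (2 : K) = -1 := by linear_combination h3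
    let a : ℤ → K := fun n => c (n + 1) * z n
    let w : ℤ → K := fun n => - (c n * z n)
    obtain ⟨b, hb⟩ := exists_rec a (fun n => (a n - a (n - 1)) + (- w n + w (n - 1)) - μ)
      (fun n => w (n - 1)) σ (fun n => mul_ne_zero (hc _) (hz _))
      (fun n => neg_ne_zero.mpr (mul_ne_zero (hc _) (hz _)))
    have ea : ∀ n, a n = (c n + ν) * z n := fun n => by rw [← hc1]
    have ea1 : ∀ n, a (n - 1) = c n * z (n - 1) := fun n => by
      simp only [a]
      rw [sub_add_cancel]
    have ew : ∀ n, w n = - (c n * z n) := fun n => rfl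
    have ew1 : ∀ n, w (n - 1) = - ((c n - ν) * z (n - 1)) := fun n => by
      simp only [w]
      rw [hc2]
    refine alg_rep σ ν μ a w (fun _ => -1) c b ?_ ?_ ?_ ?_ ?_ ?_ ?_
      (mul_ne_zero (hc _) (hz _)) (hc _)
    · intro n
      rw [ea, ew, hc1]
      linear_combination (c n * (c n + ν) * z n) * h3
    · intro n
      rw [ea, ew, hc1]
      linear_combination (c n * z n * (c n + ν)) * h3
    · intro n
      rw [hc2]
      linear_combination (c n - ν) * h3
    · intro n
      rw [hc2]
      linear_combination (c n) * h3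
    · intro n
      rw [ea, ea1, ew, ew1]
      linear_combination (-1 : K) * hz1 n + (c n * z n - c n * z (n - 1) + ν * z n + ν * z (n - 1)) * h3
    · intro n
      rw [ea, ea1, ew, ew1, hc1, hc2]
      linear_combination (- c n) * hz1 n + (c n * c n * z n - c n * c n * z (n - 1) + c n * ν * z n
        + ν * c n * z (n - 1)) * h3
    · intro n
      linear_combination hb n
  · -- characteristic different from three
    obtain ⟨γ, hγ⟩ := IsAlgClosed.exists_pow_nat_eq (ν ^ 2 / 3) (n := 2) (by norm_num)
    have hγ' : 3 * γ ^ 2 = ν ^ 2 := by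
      rw [hγ]
      field_simp
    have hγ0 : γ ≠ 0 := by
      rintro rfl
      apply hν
      have : ν ^ 2 = 0 := by rw [← hγ']; ring
      exact pow_eq_zero_iff (by norm_num) |>.mp this
    let lam : K := 2 - ν / γ
    have hl1 : lam * γ = 2 * γ - ν := by
      simp only [lam]
      field_simp
    have hl2 : lam ^ 2 - 4 * lam + 1 = 0 := by
      simp only [lam]
      field_simp
      linear_combination (-1 : K) * hγ'
    have hl0 : lam ≠ 0 := by
      intro h
      rw [h] at hl2
      norm_num at hl2
    obtain ⟨a, κ, ha, ha1, hκ⟩ : ∃ (a : ℤ → K) (κ : K), (∀ n, a n ≠ 0) ∧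
        (∀ n, a n = a (n - 1) + κ) ∧ 3 * lam * κ = μ := by
      by_cases hμ : μ = 0
      · exact ⟨fun _ => 1, 0, fun _ => one_ne_zero, fun _ => by rw [add_zero],
          by rw [hμ, mul_zero]⟩
      · refine ⟨fun n => μ / (3 * lam) * (t + n), μ / (3 * lam), fun n =>
          mul_ne_zero (div_ne_zero hμ (mul_ne_zero h3 hl0)) (ht n), fun n => ?_, ?_⟩
        · push_cast
          ring
        · field_simp
    obtain ⟨b, hb⟩ := exists_rec (fun n => - lam * a n) (fun _ => (1 + lam ^ 2) * κ - μ)
      (fun n => lam * a (n - 1)) σ (fun n => mul_ne_zero (neg_ne_zero.mpr hl0) (ha _))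
      (fun n => mul_ne_zero hl0 (ha _))
    refine alg_rep σ ν μ a (fun n => lam * a n) (fun _ => lam) (fun _ => γ) b
      ?_ ?_ ?_ ?_ ?_ ?_ ?_ (ha _) hγ0
    · intro n
      linear_combination (- a n) * hl1
    · intro n
      linear_combination (- a n * lam) * hl1 + (γ * a n) * hl2
    · intro n
      linear_combination (-1 : K) * hl1
    · intro n
      linear_combination (- lam) * hl1 + γ * hl2
    · intro n
      linear_combination (lam ^ 2 - lam + 1) * ha1 n + κ * hl2 + hκ
    · intro n
      linear_combination (γ * (lam ^ 2 - lam + 1)) * ha1 n + (γ * κ) * hl2 + γ * hκ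
    · intro n
      linear_combination hb n + (b n * (1 + lam ^ 2)) * ha1 n

/-- The flat case. -/
def nf0 (σ α : K) : Fin 4 → Fin 4 → K :=
  ![![σ, α, 0, 0], ![α, 0, 0, 0], ![0, 0, 0, 0], ![0, 0, 0, 0]]

set_option maxHeartbeats 4000000 in
theorem alg_nf0 (σ α : K) (hσ : σ ≠ 0) : Alg (n := 3) (nf0 σ α) := by
  let x : Fin 4 → Matrix (Fin 3) (Fin 3) K :=
    ![!![0, 0, 1; 0, 0, 0; 0, 0, 0], !![0, 0, 0; 0, 0, 1; 0, 0, 0],
      !![α, σ, 0; 0, α, 0; 0, 0, 0], !![0, 0, 0; 0, 0, 0; 0, 0, -1]]
  refine ⟨Matrix (Fin 3) (Fin 3) K, inferInstance, inferInstance, x, ?_, ?_⟩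
  · rw [Fintype.linearIndependent_iff]
    intro g hg
    rw [Fin.sum_univ_four] at hg
    have e02 := congrFun (congrFun hg 0) 2
    have e12 := congrFun (congrFun hg 1) 2
    have e01 := congrFun (congrFun hg 0) 1
    have e22 := congrFun (congrFun hg 2) 2
    simp [x] at e02 e12 e01 e22
    intro i
    fin_cases i
    · exact e02
    · exact e12
    · rcases e01 with h1 | h1
      · exact h1
      · exact absurd h1 hσ
    · exact e22
  · intro j
    rw [altProd_three, Fin.sum_univ_four]
    fin_cases j
    · ext a b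
      fin_cases a <;> fin_cases b <;>
        simp [x, nf0, Fin.succAbove, Matrix.mul_apply, Fin.sum_univ_three]
    · ext a b
      fin_cases a <;> fin_cases b <;>
        simp [x, nf0, Fin.succAbove, Matrix.mul_apply, Fin.sum_univ_three]
    · ext a b
      fin_cases a <;> fin_cases b <;>
        simp [x, nf0, Fin.succAbove, Matrix.mul_apply, Fin.sum_univ_three]
    · ext a b
      fin_cases a <;> fin_cases b <;>
        simp [x, nf0, Fin.succAbove, Matrix.mul_apply, Fin.sum_univ_three]

end Pool.Agent.Y146.PZ
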