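import Pool.Agent.Y146.PZ.Fam

/-!
# Algebras whose derived algebra is separated by embeddable algebras over extension fields
-/

set_option autoImplicit false

namespace Pool.Agent.Y146.PZ

open Pool.Agent.H198R3 Pool.Agent.H198R3.AltProd Module

universe u v

variable {F : Type u} [Field F] {n : ℕ}

theorem altProd_prod {A A' : Type*} [Ring A] [Ring A'] {m : ℕ} (a : Fin m → A × A') :
    altProd a = (altProd (fun k => (a k).1), altProd (fun k => (a k).2)) := by
  apply Prod.ext
  · exact map_altProd (RingHom.fst A A') a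
  · exact map_altProd (RingHom.snd A A') a

/-- Separation of the derived algebra. -/
theorem embM_sep (hn : 2 ≤ n) {L : Type v} [AddCommGroup L] [Module F L]
    (B : L [⋀^Fin n]→ₗ[F] L) {ι : Type v} (K : ι → Type u) [∀ i, Field (K i)]
    [∀ i, Algebra F (K i)] (S : ι → Type v) [∀ i, AddCommGroup (S i)] [∀ i, Module F (S i)]
    [∀ i, Module (K i) (S i)] [∀ i, IsScalarTower F (K i) (S i)]
    (C : ∀ i, S i [⋀^Fin n]→ₗ[K i] S i) (f : ∀ i, L →ₗ[F] S i)
    (hC : ∀ i, EmbM (C i)) (hf : ∀ i (w : Fin n → L), f i (B w) = C i (fun k => f i (w k)))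
    (hs : ∀ x ∈ Submodule.span F (Set.range B), (∀ i, f i x = 0) → x = 0) : EmbM B := by
  choose A iR iA j hj hjC using hC
  let _ : ∀ i, Algebra F (A i) := fun i => Algebra.compHom (A i) (algebraMap F (K i))
  have hst : ∀ i, IsScalarTower F (K i) (A i) := fun i => IsScalarTower.of_algebraMap_eq' rfl
  let D : Submodule F L := Submodule.span F (Set.range B)
  obtain ⟨A0, _, _, j0, hj0, hj0B⟩ := embM_zero (F := F) hn (L ⧸ D)
  let J : ∀ i, S i →ₗ[F] A i := fun i =>
    { toFun := j i
      map_add' := fun x y => map_add (j i) x y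
      map_smul' := fun c x => by
        have h1 : c • x = (algebraMap F (K i) c) • x := (algebraMap_smul (K i) c x).symm
        rw [h1, map_smul]
        exact algebraMap_smul (K i) c (j i x) }
  have hJ : ∀ i x, J i x = j i x := fun i x => rfl
  refine ⟨(∀ i, A i) × A0, inferInstance, inferInstance,
    (LinearMap.pi fun i => (J i) ∘ₗ (f i)).prod (j0 ∘ₗ D.mkQ), ?_, ?_⟩
  · rw [← LinearMap.ker_eq_bot, LinearMap.ker_eq_bot']
    intro x hx
    have h1 := congrArg Prod.fst hx
    have h2 := congrArg Prod.snd hx
    have h3 : j0 (D.mkQ x) = 0 := h2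
    have h4 : D.mkQ x = 0 := hj0 (h3.trans (map_zero j0).symm)
    have h5 : x ∈ D := by
      rw [Submodule.mkQ_apply, Submodule.Quotient.mk_eq_zero] at h4
      exact h4
    refine hs x h5 fun i => ?_
    have h6 : j i (f i x) = 0 := congrFun h1 i
    exact hj i (h6.trans (map_zero (j i)).symm)
  · intro v
    rw [altProd_prod]
    apply Prod.ext
    · funext i
      have h1 := map_altProd (Pi.evalRingHom A i)
        (fun k => (LinearMap.pi fun i => (J i) ∘ₗ (f i)) (v k))
      simp only [Pi.evalRingHom_apply] at h1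
      change j i (f i (B v)) = _
      rw [hf, hjC]
      exact h1.symm
    · have h1 : D.mkQ (B v) = 0 := by
        rw [Submodule.mkQ_apply, Submodule.Quotient.mk_eq_zero]
        exact Submodule.subset_span ⟨v, rfl⟩
      have h2 := hj0B (fun k => D.mkQ (v k))
      rw [AlternatingMap.zero_apply, map_zero] at h2
      change j0 (D.mkQ (B v)) = _
      rw [h1, map_zero]
      exact h2

end Pool.Agent.Y146.PZ
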